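import Pool.Agent.H75.EK.L

/-!
A typed calculus of constructible relations.
-/

open Set

namespace Pool.Agent.H75.EK

universe u v w

/-- A type whose elements are coded injectively by sets, the set of codes being constructible. -/
class MType (τ : Type u) where
  code : τ → ZFSet.{0}
  inj : Function.Injective code
  carrier : ZFSet.{0}
  inL : InL carrier
  mem_carrier : ∀ x, x ∈ carrier ↔ ∃ t, code t = x

export MType (code carrier mem_carrier)

section basic

variable {τ : Type u} [MType τ] {σ : Type v} [MType σ] {Γ : Type w} [MType Γ]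

theorem code_inj {s t : τ} : code s = code t ↔ s = t := MType.inj.eq_iff

theorem code_mem_carrier (t : τ) : code t ∈ carrier τ := (mem_carrier _).2 ⟨t, rfl⟩

theorem inL_carrier : InL (carrier τ) := MType.inL

theorem inL_code (t : τ) : InL (code t) := inL_carrier.trans (code_mem_carrier t)

theorem ex_carrier {Q : ZFSet.{0} → Prop} : (∃ y ∈ carrier τ, Q y) ↔ ∃ t : τ, Q (code t) := by
  constructor
  · rintro ⟨y, hy, h⟩
    obtain ⟨t, rfl⟩ := (mem_carrier _).1 hy
    exact ⟨t, h⟩
  · rintro ⟨t, h⟩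
    exact ⟨_, code_mem_carrier t, h⟩

/-- The predicate `P` is (coded by) a constructible set. -/
def MDef (P : τ → Prop) : Prop := ∃ s, InL s ∧ ∀ x, x ∈ s ↔ ∃ t, P t ∧ code t = x

theorem mDef_iff {P : τ → Prop} : MDef P ↔ ∃ s, InL s ∧ ∀ t : τ, code t ∈ s ↔ P t := by
  constructor
  · rintro ⟨s, hs, h⟩
    refine ⟨s, hs, fun t => ?_⟩
    rw [h]
    constructor
    · rintro ⟨t', h1, h2⟩
      rwa [← code_inj.1 h2]
    · intro h1; exact ⟨t, h1, rfl⟩
  · rintro ⟨s, hs, h⟩
    obtain ⟨r, hr, h'⟩ := sepL (D0.mem 0 2) (carrier τ) [s] inL_carrier (by simpa using hs)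
    refine ⟨r, hr, fun x => ?_⟩
    rw [h']
    simp only [Function.update_self]
    rw [mem_carrier]
    constructor
    · rintro ⟨⟨t, rfl⟩, h2⟩
      exact ⟨t, (h t).1 (by simpa [val, Function.update] using h2), rfl⟩
    · rintro ⟨t, h2, rfl⟩
      exact ⟨⟨t, rfl⟩, by simpa [val, Function.update] using (h t).2 h2⟩

theorem MDef.of_sep {P : τ → Prop} {Q : (ℕ → ZFSet.{0}) → Prop} (hQ : D0 Q) (l : List ZFSet.{0})
    (hl : ∀ a ∈ l, InL a)
    (h : ∀ t : τ, Q (Function.update (val (carrier τ :: l)) 0 (code t)) ↔ P t) : MDef P := by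
  obtain ⟨s, hs, h'⟩ := sepL hQ (carrier τ) l inL_carrier hl
  rw [mDef_iff]
  refine ⟨s, hs, fun t => ?_⟩
  rw [h', h]
  simp [code_mem_carrier]

theorem MDef.congr {P Q : τ → Prop} (h : MDef P) (hPQ : ∀ t, P t ↔ Q t) : MDef Q := by
  have : P = Q := funext fun t => propext (hPQ t)
  rwa [← this]

theorem MDef.not {P : τ → Prop} (h : MDef P) : MDef (fun t => ¬ P t) := by
  obtain ⟨s, hs, h⟩ := mDef_iff.1 h
  refine MDef.of_sep (D0.not (D0.mem 0 2)) [s] (by simpa using hs) fun t => ?_
  simp [val, Function.update, h]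

theorem MDef.and {P Q : τ → Prop} (hP : MDef P) (hQ : MDef Q) : MDef (fun t => P t ∧ Q t) := by
  obtain ⟨s, hs, h⟩ := mDef_iff.1 hP
  obtain ⟨s', hs', h'⟩ := mDef_iff.1 hQ
  refine MDef.of_sep (D0.and (D0.mem 0 2) (D0.mem 0 3)) [s, s'] (by simpa using ⟨hs, hs'⟩)
    fun t => ?_
  simp [val, Function.update, h, h']

theorem MDef.or {P Q : τ → Prop} (hP : MDef P) (hQ : MDef Q) : MDef (fun t => P t ∨ Q t) :=
  ((hP.not.and hQ.not).not).congr fun t => by tauto

theorem MDef.imp {P Q : τ → Prop} (hP : MDef P) (hQ : MDef Q) : MDef (fun t => P t → Q t) :=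
  ((hP.and hQ.not).not).congr fun t => by tauto

theorem MDef.iff {P Q : τ → Prop} (hP : MDef P) (hQ : MDef Q) : MDef (fun t => P t ↔ Q t) :=
  ((hP.imp hQ).and (hQ.imp hP)).congr fun t => by tauto

theorem MDef.const (p : Prop) : MDef (fun _ : τ => p) := by
  by_cases hp : p
  · refine MDef.of_sep (D0.eq 0 0) [] (by simp) fun t => ?_
    simp [hp]
  · refine MDef.of_sep (D0.not (D0.eq 0 0)) [] (by simp) fun t => ?_
    simp [hp]

noncomputable instance : MType (τ × σ) where
  code p := ZFSet.pair (code p.1) (code p.2)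
  inj := by
    rintro ⟨a, b⟩ ⟨c, d⟩ h
    simp only [ZFSet.pair_inj, code_inj] at h
    rw [h.1, h.2]
  carrier := ZFSet.prod (carrier τ) (carrier σ)
  inL := inL_carrier.prod inL_carrier
  mem_carrier x := by
    rw [ZFSet.mem_prod]
    constructor
    · rintro ⟨a, ha, b, hb, rfl⟩
      obtain ⟨a, rfl⟩ := (mem_carrier _).1 ha
      obtain ⟨b, rfl⟩ := (mem_carrier _).1 hb
      exact ⟨(a, b), rfl⟩
    · rintro ⟨⟨a, b⟩, rfl⟩
      exact ⟨_, code_mem_carrier a, _, code_mem_carrier b, rfl⟩

theorem code_prod (p : τ × σ) : code p = ZFSet.pair (code p.1) (code p.2) := rfl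

theorem code_pair (a : τ) (b : σ) : ZFSet.pair (code a) (code b) = code (a, b) := rfl

theorem MDef.ex {P : Γ → τ → Prop} (h : MDef (fun p : Γ × τ => P p.1 p.2)) :
    MDef (fun c => ∃ t, P c t) := by
  obtain ⟨s, hs, h⟩ := mDef_iff.1 h
  refine MDef.of_sep (D0.bex 4 2 (by decide) (D0.pairMem 0 4 3)) [carrier τ, s]
    (by simpa using ⟨inL_carrier, hs⟩) fun t => ?_
  simp [val, Function.update, ex_carrier, code_pair, h]

theorem MDef.all {P : Γ → τ → Prop} (h : MDef (fun p : Γ × τ => P p.1 p.2)) :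
    MDef (fun c => ∀ t, P c t) :=
  ((MDef.ex (P := fun c t => ¬ P c t) h.not).not).congr fun t => by push Not; rfl

/-- The function `f` is (coded by) a constructible set. -/
@[fun_prop]
def MFun (f : Γ → τ) : Prop := MDef (fun p : Γ × τ => f p.1 = p.2)

theorem MDef.comp {f : Γ → τ} {P : τ → Prop} (hP : MDef P) (hf : MFun f) :
    MDef (fun c => P (f c)) := by
  obtain ⟨s, hs, h⟩ := mDef_iff.1 hP
  obtain ⟨s', hs', h'⟩ := mDef_iff.1 hf
  refine MDef.of_sep (D0.bex 5 2 (by decide) ((D0.pairMem 0 5 3).and (D0.mem 5 4)))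
    [carrier τ, s', s] (by simpa using ⟨inL_carrier, hs', hs⟩) fun t => ?_
  simp [val, Function.update, ex_carrier, code_pair, h, h']

@[fun_prop]
theorem mFun_id : MFun (fun c : Γ => c) := by
  refine MDef.of_sep (D0.bex 4 2 (by decide) (D0.pair 0 4 4)) [carrier Γ]
    (by simpa using inL_carrier) fun t => ?_
  simp only [val, Function.update, code_prod]
  simp [ZFSet.pair_inj, code_inj]
  rcases t with ⟨a, b⟩
  simp [code_mem_carrier]

@[fun_prop]
theorem mFun_const (t : τ) : MFun (fun _ : Γ => t) := by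
  refine MDef.of_sep (D0.bex 4 2 (by decide) (D0.pair 0 4 3)) [carrier Γ, code t]
    (by simpa using ⟨inL_carrier, inL_code t⟩) fun t => ?_
  simp only [val, Function.update, code_prod]
  simp [ex_carrier, ZFSet.pair_inj, code_inj]
  rcases t with ⟨a, b⟩
  simp [eq_comm]

@[fun_prop]
theorem mFun_comp {f : τ → σ} {g : Γ → τ} (hf : MFun f) (hg : MFun g) :
    MFun (fun c => f (g c)) := by
  obtain ⟨s, hs, h⟩ := mDef_iff.1 hf
  obtain ⟨s', hs', h'⟩ := mDef_iff.1 hg
  refine MDef.of_sep (D0.bex 20 2 (by decide) (D0.bex 21 3 (by decide) (D0.bex 22 4 (by decide)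
    ((D0.pair 0 20 22).and ((D0.pairMem 20 21 6).and (D0.pairMem 21 22 5))))))
    [carrier Γ, carrier τ, carrier σ, s, s']
    (by simpa using ⟨inL_carrier, inL_carrier, inL_carrier, hs, hs'⟩) fun t => ?_
  simp only [val, Function.update, code_prod]
  simp [ex_carrier, code_inj, code_pair, h, h']
  rcases t with ⟨a, b⟩
  simp [eq_comm]

@[fun_prop]
theorem mFun_prodMk {f : Γ → τ} {g : Γ → σ} (hf : MFun f) (hg : MFun g) :
    MFun (fun c => (f c, g c)) := by
  obtain ⟨s, hs, h⟩ := mDef_iff.1 hf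
  obtain ⟨s', hs', h'⟩ := mDef_iff.1 hg
  refine MDef.of_sep (D0.bex 20 2 (by decide) (D0.bex 21 3 (by decide) (D0.bex 22 4 (by decide)
    (D0.bex 23 5 (by decide)
    (((D0.pair 0 20 23).and (D0.pair 23 21 22)).and
      ((D0.pairMem 20 21 6).and (D0.pairMem 20 22 7)))))))
    [carrier Γ, carrier τ, carrier σ, carrier (τ × σ), s, s']
    (by simpa using ⟨inL_carrier, inL_carrier, inL_carrier, inL_carrier, hs, hs'⟩) fun t => ?_
  simp only [val, Function.update, code_prod]
  simp [ex_carrier, code_inj, code_pair, h, h']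
  rcases t with ⟨a, b, c⟩
  constructor
  · rintro ⟨t, ht⟩
    simp only [Prod.mk.injEq] at ht ⊢
    obtain ⟨rfl, rfl, rfl⟩ := ht
    exact ⟨rfl, rfl⟩
  · intro h
    simp only [Prod.mk.injEq] at h
    obtain ⟨rfl, rfl⟩ := h
    exact ⟨a, rfl⟩

@[fun_prop]
theorem mFun_fst {f : Γ → τ × σ} (hf : MFun f) : MFun (fun c => (f c).1) := by
  suffices h : MFun (fun p : τ × σ => p.1) from mFun_comp h hf
  refine MDef.of_sep (D0.bex 20 2 (by decide) (D0.bex 21 3 (by decide) (D0.bex 22 4 (by decide)
    ((D0.pair 0 22 20).and (D0.pair 22 20 21)))))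
    [carrier τ, carrier σ, carrier (τ × σ)]
    (by simpa using ⟨inL_carrier, inL_carrier, inL_carrier⟩) fun t => ?_
  simp only [val, Function.update, code_prod]
  simp [ex_carrier, code_inj, code_pair]
  rcases t with ⟨⟨a, b⟩, c⟩
  constructor
  · rintro ⟨t, ht⟩
    aesop
  · intro h
    have := code_mem_carrier (a, b)
    aesop

@[fun_prop]
theorem mFun_snd {f : Γ → τ × σ} (hf : MFun f) : MFun (fun c => (f c).2) := by
  suffices h : MFun (fun p : τ × σ => p.2) from mFun_comp h hf
  refine MDef.of_sep (D0.bex 20 2 (by decide) (D0.bex 21 3 (by decide) (D0.bex 22 4 (by decide)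
    ((D0.pair 0 22 21).and (D0.pair 22 20 21)))))
    [carrier τ, carrier σ, carrier (τ × σ)]
    (by simpa using ⟨inL_carrier, inL_carrier, inL_carrier⟩) fun t => ?_
  simp only [val, Function.update, code_prod]
  simp [ex_carrier, code_inj, code_pair]
  rcases t with ⟨⟨a, b⟩, c⟩
  constructor
  · rintro ⟨t, ht⟩
    aesop
  · intro h
    have := code_mem_carrier (a, b)
    aesop

theorem MDef.eq {f g : Γ → τ} (hf : MFun f) (hg : MFun g) : MDef (fun c => f c = g c) := by
  have h : MDef (fun p : τ × τ => p.1 = p.2) := by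
    refine MDef.of_sep (D0.bex 4 2 (by decide) (D0.pair 0 4 4)) [carrier τ]
      (by simpa using inL_carrier) fun t => ?_
    simp only [val, Function.update, code_prod]
    simp [ZFSet.pair_inj, code_inj]
    rcases t with ⟨a, b⟩
    simp [code_mem_carrier]
  exact h.comp (by fun_prop : MFun (fun c => (f c, g c)))

/-- Sets of elements of `τ` that are constructible. -/
def MSet (τ : Type u) [MType τ] : Type u := {S : Set τ // MDef (· ∈ S)}

noncomputable instance : MType (MSet τ) where
  code S := Classical.choose S.2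
  inj := by
    rintro S S' h
    have h1 := (Classical.choose_spec S.2).2
    have h2 := (Classical.choose_spec S'.2).2
    apply Subtype.ext
    ext t
    dsimp only at h
    rw [h] at h1
    have h3 := (h1 (code t)).symm.trans (h2 (code t))
    simpa [code_inj] using h3
  carrier := Classical.choose (InL.pow (inL_carrier (τ := τ)))
  inL := (Classical.choose_spec (InL.pow (inL_carrier (τ := τ)))).1
  mem_carrier x := by
    rw [(Classical.choose_spec (InL.pow (inL_carrier (τ := τ)))).2]
    constructor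
    · rintro ⟨h1, h2⟩
      have h3 : ∀ y, y ∈ x ↔ ∃ t : τ, code t ∈ x ∧ code t = y := by
        intro y
        constructor
        · intro hy
          obtain ⟨t, rfl⟩ := (mem_carrier _).1 (h2 hy)
          exact ⟨t, hy, rfl⟩
        · rintro ⟨t, ht, rfl⟩
          exact ht
      refine ⟨⟨{t | code t ∈ x}, ⟨x, h1, h3⟩⟩, ?_⟩
      ext y
      rw [h3 y]
      exact (Classical.choose_spec (⟨x, h1, h3⟩ : MDef (fun t : τ => code t ∈ x))).2 y
    · rintro ⟨S, rfl⟩
      have h1 := (Classical.choose_spec S.2)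
      refine ⟨h1.1, ?_⟩
      intro y hy
      obtain ⟨t, -, rfl⟩ := (h1.2 y).1 hy
      exact code_mem_carrier t

theorem code_mem_code {t : τ} {S : MSet τ} : code t ∈ code S ↔ t ∈ S.1 := by
  have h := (Classical.choose_spec S.2).2 (code t)
  refine h.trans ?_
  simp [code_inj]

theorem MDef.mem {f : Γ → τ} {g : Γ → MSet τ} (hf : MFun f) (hg : MFun g) :
    MDef (fun c => f c ∈ (g c).1) := by
  have h : MDef (fun p : τ × MSet τ => p.1 ∈ p.2.1) := by
    refine MDef.of_sep (D0.bex 4 2 (by decide) (D0.bex 5 3 (by decide)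
      ((D0.pair 0 4 5).and (D0.mem 4 5)))) [carrier τ, carrier (MSet τ)]
      (by simpa using ⟨inL_carrier, inL_carrier⟩) fun t => ?_
    simp only [val, Function.update, code_prod]
    simp [ex_carrier, code_inj, code_mem_code]
  exact h.comp (by fun_prop : MFun (fun c => (f c, g c)))

end basic

/-- The ordinals below `κ`. -/
noncomputable instance (κ : Ordinal.{0}) : MType (Set.Iio κ) where
  code o := o.1.toZFSet
  inj := fun a b h => Subtype.ext (Ordinal.toZFSet_injective h)
  carrier := κ.toZFSet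
  inL := inL_ordinal κ
  mem_carrier x := by
    rw [Ordinal.mem_toZFSet_iff]
    simp

/-- The natural numbers. -/
noncomputable instance : MType ℕ where
  code n := (n : Ordinal.{0}).toZFSet
  inj := fun a b h => by simpa using Ordinal.toZFSet_injective h
  carrier := Ordinal.omega0.toZFSet
  inL := inL_ordinal _
  mem_carrier x := by
    rw [Ordinal.mem_toZFSet_iff]
    simp [Ordinal.lt_omega0]

section order

variable {Γ : Type w} [MType Γ]

theorem mDef_lt_of {τ : Type u} [MType τ] [LT τ]
    (hlt : ∀ s t : τ, s < t ↔ (code s : ZFSet.{0}) ∈ (code t : ZFSet.{0}))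
    {f g : Γ → τ} (hf : MFun f) (hg : MFun g) : MDef (fun c => f c < g c) := by
  have h : MDef (fun p : τ × τ => p.1 < p.2) := by
    refine MDef.of_sep (D0.bex 4 2 (by decide) (D0.bex 5 2 (by decide)
      ((D0.pair 0 4 5).and (D0.mem 4 5)))) [carrier τ]
      (by simpa using inL_carrier) fun t => ?_
    simp only [val, Function.update, code_prod]
    simp [ex_carrier, code_inj, hlt]
  exact h.comp (by fun_prop : MFun (fun c => (f c, g c)))

theorem MDef.lt {f g : Γ → ℕ} (hf : MFun f) (hg : MFun g) : MDef (fun c => f c < g c) :=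
  mDef_lt_of (fun s t => by simp [code]) hf hg

theorem MDef.olt {κ : Ordinal.{0}} {f g : Γ → Set.Iio κ} (hf : MFun f) (hg : MFun g) :
    MDef (fun c => f c < g c) :=
  mDef_lt_of (fun s t => by simp [code]) hf hg

theorem MDef.le {f g : Γ → ℕ} (hf : MFun f) (hg : MFun g) : MDef (fun c => f c ≤ g c) :=
  (MDef.lt hg hf).not.congr fun c => by simp

@[fun_prop]
theorem mFun_succ {f : Γ → ℕ} (hf : MFun f) : MFun (fun c => f c + 1) := by
  suffices h : MFun (fun n : ℕ => n + 1) from mFun_comp h hf
  unfold MFun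
  refine MDef.congr (P := fun p : ℕ × ℕ => p.1 < p.2 ∧ ¬ ∃ k : ℕ, p.1 < k ∧ k < p.2) ?_ ?_
  · refine (MDef.lt (by fun_prop) (by fun_prop)).and (MDef.not (MDef.ex ?_))
    exact (MDef.lt (by fun_prop) (by fun_prop)).and (MDef.lt (by fun_prop) (by fun_prop))
  · rintro ⟨a, b⟩
    dsimp only
    constructor
    · rintro ⟨h1, h2⟩
      by_contra h3
      exact h2 ⟨a + 1, by omega, by omega⟩
    · rintro rfl
      exact ⟨by omega, by rintro ⟨k, h1, h2⟩; omega⟩

end order

/-! ### Subtypes and lists -/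

section sub

variable {τ : Type u} {σ : Type v} [MType σ] {Γ : Type w} [MType Γ]

/-- Coding through an injection with constructible range. -/
@[reducible]
noncomputable def MType.ofInj (φ : τ → σ) (hφ : Function.Injective φ)
    (h : MDef (fun s => ∃ t, φ t = s)) : MType τ where
  code t := code (φ t)
  inj := fun a b hab => hφ (code_inj.1 hab)
  carrier := Classical.choose h
  inL := (Classical.choose_spec h).1
  mem_carrier x := by
    rw [(Classical.choose_spec h).2]
    simp

theorem mFun_ofInj [MType τ] (φ : τ → σ) (hφ : ∀ t, code t = code (φ t)) : MFun φ := by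
  refine MDef.of_sep (D0.bex 4 2 (by decide) (D0.pair 0 4 4)) [carrier σ]
    (by simpa using inL_carrier) fun t => ?_
  simp only [val, Function.update, code_prod]
  simp [code_inj, hφ]
  rcases t with ⟨a, b⟩
  simp [eq_comm, code_mem_carrier]

end sub

section list

variable {τ : Type u} [MType τ] {σ : Type v} [MType σ] {Γ : Type w} [MType Γ]

theorem MDef.finite {S : Set τ} (hS : S.Finite) : MDef (· ∈ S) := by
  induction S, hS using Set.Finite.induction_on with
  | empty => exact (MDef.const False).congr (by simp)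
  | @insert a _ _ _ ih =>
    exact ((MDef.eq (f := fun t => t) (g := fun _ => a) (by fun_prop) (by fun_prop)).or ih).congr
      (by simp)

omit [MType τ] in
theorem finite_graph (l : List τ) : {p : ℕ × τ | l[p.1]? = some p.2}.Finite := by
  refine (Set.finite_range (fun i : Fin l.length => (i.1, l[i]))).subset ?_
  rintro ⟨i, a⟩ h
  simp only [mem_ofPred_eq] at h
  obtain ⟨hi, rfl⟩ := List.getElem?_eq_some_iff.1 h
  exact ⟨⟨i, hi⟩, rfl⟩

/-- The graph of a list. -/
def lgraph (l : List τ) : MSet (ℕ × τ) :=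
  ⟨{p | l[p.1]? = some p.2}, MDef.finite (finite_graph l)⟩

theorem mem_lgraph {l : List τ} {i : ℕ} {a : τ} : (i, a) ∈ (lgraph l).1 ↔ l[i]? = some a := Iff.rfl

theorem lgraph_injective : Function.Injective (lgraph (τ := τ)) := by
  intro l l' h
  refine List.ext_getElem? fun i => ?_
  ext a
  have := congrArg (fun S => (i, a) ∈ S.1) h
  simpa [mem_lgraph] using this

theorem range_lgraph : MDef (fun S : MSet (ℕ × τ) => ∃ l, lgraph l = S) := by
  refine MDef.congr (P := fun S : MSet (ℕ × τ) => ∃ n : ℕ, ∀ i : ℕ,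
    (i < n → ∃ a : τ, (i, a) ∈ S.1 ∧ ∀ b : τ, (i, b) ∈ S.1 → b = a) ∧
    (n ≤ i → ∀ a : τ, ¬ (i, a) ∈ S.1)) ?_ ?_
  · refine MDef.ex (MDef.all (MDef.and (MDef.imp (MDef.lt ?_ ?_) (MDef.ex (MDef.and
      (MDef.mem ?_ ?_) (MDef.all (MDef.imp (MDef.mem ?_ ?_) (MDef.eq ?_ ?_))))))
      (MDef.imp (MDef.le ?_ ?_) (MDef.all (MDef.not (MDef.mem ?_ ?_)))))) <;> fun_prop
  · intro S
    constructor
    · rintro ⟨n, h⟩
      choose f hf hf' using fun (i : ℕ) (hi : i < n) => (h i).1 hi
      refine ⟨List.ofFn (fun i : Fin n => f i i.2), ?_⟩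
      apply Subtype.ext
      ext ⟨i, a⟩
      rw [mem_lgraph]
      by_cases hi : i < n
      · rw [List.getElem?_ofFn]
        simp only [hi, dite_true, Option.some.injEq]
        constructor
        · rintro rfl; exact hf i hi
        · intro h1; exact (hf' i hi a h1).symm
      · have h1 : ¬ (i, a) ∈ S.1 := (h i).2 (by omega) a
        rw [List.getElem?_ofFn]
        simp [hi, h1]
    · rintro ⟨l, rfl⟩
      refine ⟨l.length, fun i => ⟨fun hi => ⟨l[i], ?_, ?_⟩, fun hi a => ?_⟩⟩
      · rw [mem_lgraph]; simp [hi]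
      · intro b hb
        rw [mem_lgraph] at hb
        simpa [hi] using hb.symm
      · rw [mem_lgraph]
        simp [List.getElem?_eq_none hi]

noncomputable instance : MType (List τ) :=
  MType.ofInj lgraph lgraph_injective range_lgraph

@[fun_prop]
theorem mFun_lgraph {f : Γ → List τ} (hf : MFun f) : MFun (fun c => lgraph (f c)) :=
  mFun_comp (mFun_ofInj lgraph fun _ => rfl) hf

theorem MDef.getElem? {f : Γ → List τ} {g : Γ → ℕ} {h : Γ → τ} (hf : MFun f) (hg : MFun g)
    (hh : MFun h) : MDef (fun c => (f c)[g c]? = some (h c)) := by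
  refine MDef.congr (P := fun c => (g c, h c) ∈ (lgraph (f c)).1) ?_ fun c => mem_lgraph
  exact MDef.mem (by fun_prop) (by fun_prop)

@[fun_prop]
theorem mFun_length {f : Γ → List τ} (hf : MFun f) : MFun (fun c => (f c).length) := by
  suffices h : MFun (fun l : List τ => l.length) from mFun_comp h hf
  unfold MFun
  refine MDef.congr (P := fun p : List τ × ℕ => ∀ i : ℕ, (∃ a : τ, p.1[i]? = some a) ↔ i < p.2)
    ?_ ?_
  · refine MDef.all (MDef.iff (MDef.ex (MDef.getElem? ?_ ?_ ?_)) (MDef.lt ?_ ?_)) <;> fun_prop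
  · rintro ⟨l, n⟩
    dsimp only
    constructor
    · intro h
      have h1 : ∀ i, i < l.length ↔ i < n := by
        intro i
        rw [← h i]
        constructor
        · intro hi; exact ⟨l[i], by simp [hi]⟩
        · rintro ⟨a, ha⟩
          exact (List.getElem?_eq_some_iff.1 ha).1
      have h2 := h1 n
      have h3 := h1 l.length
      omega
    · rintro rfl i
      constructor
      · rintro ⟨a, ha⟩
        exact (List.getElem?_eq_some_iff.1 ha).1
      · intro hi; exact ⟨l[i], by simp [hi]⟩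

end list

end Pool.Agent.H75.EK
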