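import Pool.Agent.H75.EK.Sig

/-!
`Σ¹₂` sets of reals, and their pull-backs to the space of sequences of digits.
-/

open Set

namespace Pool.Agent.H75.EK

universe u v w

/-- The real with the digits `s` in base `4`. -/
noncomputable def yv (s : ℕ → ℕ) : ℝ := ∑' n, (s n : ℝ) * (1 / 4) ^ n

/-- The integer partial sums. -/
def NN (s : ℕ → ℕ) : ℕ → ℕ
  | 0 => 0
  | m + 1 => 4 * (NN s m + s m)

theorem summable_yv {s : ℕ → ℕ} (hs : ∀ i, s i ≤ 2) :
    Summable (fun n => (s n : ℝ) * (1 / 4) ^ n) := by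
  refine Summable.of_nonneg_of_le (fun n => by positivity) (fun n => ?_)
    ((summable_geometric_of_lt_one (r := (1 / 4 : ℝ)) (by norm_num) (by norm_num)).mul_left 2)
  have : (s n : ℝ) ≤ 2 := by exact_mod_cast hs n
  gcongr

theorem yv_add {s t : ℕ → ℕ} (hs : ∀ i, s i ≤ 2) (ht : ∀ i, t i ≤ 2) :
    yv (fun i => s i + t i) = yv s + yv t := by
  unfold yv
  rw [← (summable_yv hs).tsum_add (summable_yv ht)]
  congr 1
  ext n
  push_cast
  ring

theorem yv_injective {s t : ℕ → ℕ} (hs : ∀ i, s i < 2) (ht : ∀ i, t i < 2) (h : yv s = yv t) :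
    s = t := by
  have key : ∀ s : ℕ → ℕ, (∀ i, s i < 2) →
      yv s = Cardinal.cantorFunction (1 / 4) (fun n => decide (s n = 1)) := by
    intro s hs
    unfold yv Cardinal.cantorFunction
    congr 1
    ext n
    unfold Cardinal.cantorFunctionAux
    have := hs n
    by_cases h1 : s n = 1
    · simp [h1]
    · have : s n = 0 := by omega
      simp [this]
  rw [key s hs, key t ht] at h
  have := Cardinal.cantorFunction_injective (by norm_num : (0 : ℝ) < 1 / 4) (by norm_num) h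
  ext i
  have h1 := congrFun this i
  have h2 := hs i
  have h3 := ht i
  simp only [decide_eq_decide] at h1
  omega

theorem cast_NN (s : ℕ → ℕ) (m : ℕ) :
    (NN s m : ℝ) = 4 ^ m * ∑ n ∈ Finset.range m, (s n : ℝ) * (1 / 4) ^ n := by
  induction m with
  | zero => simp [NN]
  | succ m ih =>
    rw [NN, Finset.sum_range_succ]
    push_cast
    rw [ih]
    have : (4 : ℝ) ^ m * (1 / 4) ^ m = 1 := by rw [← mul_pow]; norm_num
    linear_combination (-4 * (s m : ℝ)) * this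

theorem abs_yv_sub_NN {s : ℕ → ℕ} (hs : ∀ i, s i ≤ 2) (m : ℕ) :
    |yv s * 4 ^ m - NN s m| ≤ 4 := by
  have h1 := (summable_yv hs).sum_add_tsum_nat_add m
  have h2 : yv s * 4 ^ m - NN s m = 4 ^ m * ∑' n, (s (n + m) : ℝ) * (1 / 4) ^ (n + m) := by
    rw [cast_NN, yv, ← h1]; ring
  have h3 : 0 ≤ ∑' n, (s (n + m) : ℝ) * (1 / 4) ^ (n + m) := tsum_nonneg fun n => by positivity
  have h4 : ∑' n, (s (n + m) : ℝ) * (1 / 4) ^ (n + m) ≤
      ∑' n : ℕ, (2 * (1 / 4 : ℝ) ^ m) * (1 / 4) ^ n := by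
    refine Summable.tsum_le_tsum (fun n => ?_) ((summable_nat_add_iff m).2 (summable_yv hs))
      ((summable_geometric_of_lt_one (r := (1 / 4 : ℝ)) (by norm_num) (by norm_num)).mul_left _)
    have : (s (n + m) : ℝ) ≤ 2 := by exact_mod_cast hs _
    rw [pow_add]
    have h5 : (0 : ℝ) ≤ (1 / 4) ^ n * (1 / 4) ^ m := by positivity
    nlinarith
  rw [tsum_mul_left, tsum_geometric_of_lt_one (by norm_num) (by norm_num)] at h4
  have h5 : (4 : ℝ) ^ m * (1 / 4) ^ m = 1 := by rw [← mul_pow]; norm_num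
  rw [h2, abs_of_nonneg (by positivity)]
  calc (4 : ℝ) ^ m * ∑' n, (s (n + m) : ℝ) * (1 / 4) ^ (n + m)
      ≤ 4 ^ m * (2 * (1 / 4) ^ m * (1 - 1 / 4)⁻¹) := by gcongr
    _ = 2 * (4 ^ m * (1 / 4) ^ m) * (1 - 1 / 4)⁻¹ := by ring
    _ ≤ 4 := by rw [h5]; norm_num

theorem names_iff {s : ℕ → ℕ} (hs : ∀ i, s i ≤ 2) (f : ℕ → ℕ) :
    Names f (yv s) ↔ ∀ i m : ℕ,
      |(2 : ℝ) ^ i * NN s m - (((Nat.unpair (f i)).1 : ℝ) - (Nat.unpair (f i)).2) * 4 ^ m|
        ≤ 4 ^ m + 4 * 2 ^ i := by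
  unfold Names dya
  refine forall_congr' fun i => ?_
  set d : ℝ := ((Nat.unpair (f i)).1 : ℝ) - (Nat.unpair (f i)).2 with hd
  have h2i : (0 : ℝ) < 2 ^ i := by positivity
  have e1 : |yv s - d / 2 ^ i| ≤ 1 / 2 ^ i ↔ |2 ^ i * yv s - d| ≤ 1 := by
    rw [le_div_iff₀ h2i, ← abs_of_pos h2i, ← abs_mul, abs_of_pos h2i]
    congr! 2
    field_simp
  rw [e1]
  constructor
  · intro h m
    have h3 := abs_yv_sub_NN hs m
    have h4m : (0 : ℝ) < 4 ^ m := by positivity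
    have e2 : (2 : ℝ) ^ i * NN s m - d * 4 ^ m = (2 ^ i * yv s - d) * 4 ^ m
        - 2 ^ i * (yv s * 4 ^ m - NN s m) := by ring
    rw [e2]
    refine (abs_sub _ _).trans ?_
    rw [abs_mul, abs_mul, abs_of_pos h4m, abs_of_pos h2i]
    nlinarith
  · intro h
    refine le_of_forall_pos_le_add fun ε hε => ?_
    obtain ⟨m, hm⟩ := exists_pow_lt_of_lt_one (show 0 < ε / (8 * 2 ^ i) by positivity)
      (show (1 / 4 : ℝ) < 1 by norm_num)
    have h3 := abs_yv_sub_NN hs m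
    have h4m : (0 : ℝ) < 4 ^ m := by positivity
    have h4 := h m
    have e2 : (2 ^ i * yv s - d) * 4 ^ m = ((2 : ℝ) ^ i * NN s m - d * 4 ^ m)
        + 2 ^ i * (yv s * 4 ^ m - NN s m) := by ring
    have h5 : |2 ^ i * yv s - d| * 4 ^ m ≤ 4 ^ m + 8 * 2 ^ i := by
      rw [← abs_of_pos h4m, ← abs_mul, abs_of_pos h4m, e2]
      refine (abs_add_le _ _).trans ?_
      rw [abs_mul (2 ^ i), abs_of_pos h2i]
      nlinarith
    have h6 : 8 * 2 ^ i * (1 / 4 : ℝ) ^ m < ε := by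
      rw [lt_div_iff₀ (by positivity)] at hm
      linarith
    have h7 : (4 : ℝ) ^ m * (1 / 4) ^ m = 1 := by rw [← mul_pow]; norm_num
    have h8 : |2 ^ i * yv s - d| = |2 ^ i * yv s - d| * 4 ^ m * (1 / 4) ^ m := by
      rw [mul_assoc, h7, mul_one]
    rw [h8]
    calc |2 ^ i * yv s - d| * 4 ^ m * (1 / 4) ^ m ≤ (4 ^ m + 8 * 2 ^ i) * (1 / 4) ^ m := by
          gcongr
      _ = 1 + 8 * 2 ^ i * (1 / 4) ^ m := by rw [add_mul, h7]
      _ ≤ 1 + ε := by linarith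

/-! ### The normal form of the pull-back -/

/-- The digit coordinate. -/
def cs (x : ℕ) : ℕ := (Nat.unpair x).1
/-- The name coordinate. -/
def cf (x : ℕ) : ℕ := (Nat.unpair (Nat.unpair x).2).1
/-- The witness coordinate. -/
def cu (x : ℕ) : ℕ := (Nat.unpair (Nat.unpair (Nat.unpair x).2).2).1
/-- The partial sum coordinate. -/
def cN (x : ℕ) : ℕ := (Nat.unpair (Nat.unpair (Nat.unpair x).2).2).2

@[fun_prop] theorem mFun_cs {Γ : Type w} [MType Γ] {f : Γ → ℕ} (hf : MFun f) :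
    MFun (fun c => cs (f c)) := by unfold cs; fun_prop
@[fun_prop] theorem mFun_cf {Γ : Type w} [MType Γ] {f : Γ → ℕ} (hf : MFun f) :
    MFun (fun c => cf (f c)) := by unfold cf; fun_prop
@[fun_prop] theorem mFun_cu {Γ : Type w} [MType Γ] {f : Γ → ℕ} (hf : MFun f) :
    MFun (fun c => cu (f c)) := by unfold cu; fun_prop
@[fun_prop] theorem mFun_cN {Γ : Type w} [MType Γ] {f : Γ → ℕ} (hf : MFun f) :
    MFun (fun c => cN (f c)) := by unfold cN; fun_prop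

/-- The closed condition: the fourth coordinate is the sequence of the partial sums, the second
coordinate is a name. -/
def CC (l : List ℕ) : Prop :=
  (∀ x : ℕ, l[0]? = some x → cN x = 0) ∧
  (∀ m x y : ℕ, l[m]? = some x → l[m + 1]? = some y → cN y = 4 * (cN x + cs x)) ∧
  ∀ i m x y : ℕ, l[i]? = some x → l[m]? = some y →
    2 ^ i * cN y + (Nat.unpair (cf x)).2 * 4 ^ m ≤
        (Nat.unpair (cf x)).1 * 4 ^ m + (4 ^ m + 4 * 2 ^ i) ∧
    (Nat.unpair (cf x)).1 * 4 ^ m ≤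
        2 ^ i * cN y + (Nat.unpair (cf x)).2 * 4 ^ m + (4 ^ m + 4 * 2 ^ i)

theorem mDef_CC : MDef CC := by
  unfold CC
  refine MDef.and (MDef.all (MDef.imp (MDef.getElem? ?_ ?_ ?_) (MDef.eq ?_ ?_)))
    (MDef.and (MDef.all (MDef.all (MDef.all (MDef.imp (MDef.getElem? ?_ ?_ ?_)
    (MDef.imp (MDef.getElem? ?_ ?_ ?_) (MDef.eq ?_ ?_))))))
    (MDef.all (MDef.all (MDef.all (MDef.all (MDef.imp (MDef.getElem? ?_ ?_ ?_)
    (MDef.imp (MDef.getElem? ?_ ?_ ?_) (MDef.and (MDef.le ?_ ?_) (MDef.le ?_ ?_)))))))))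
    <;> fun_prop

theorem CC_iff {a : ℕ → ℕ} (hs : ∀ i, cs (a i) ≤ 2) : (∀ n, CC (res a n)) ↔
    (∀ m, cN (a m) = NN (fun i => cs (a i)) m) ∧
      Names (fun i => cf (a i)) (yv (fun i => cs (a i))) := by
  have h1 : (∀ n, CC (res a n)) ↔ cN (a 0) = 0 ∧ (∀ m, cN (a (m + 1)) = 4 * (cN (a m) + cs (a m))) ∧
      ∀ i m, 2 ^ i * cN (a m) + (Nat.unpair (cf (a i))).2 * 4 ^ m ≤
        (Nat.unpair (cf (a i))).1 * 4 ^ m + (4 ^ m + 4 * 2 ^ i) ∧
      (Nat.unpair (cf (a i))).1 * 4 ^ m ≤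
        2 ^ i * cN (a m) + (Nat.unpair (cf (a i))).2 * 4 ^ m + (4 ^ m + 4 * 2 ^ i) := by
    unfold CC
    simp only [getElem?_res_eq_some]
    constructor
    · intro h
      refine ⟨(h 1).1 _ ⟨by omega, rfl⟩, fun m => (h (m + 2)).2.1 m _ _ ⟨by omega, rfl⟩
        ⟨by omega, rfl⟩, fun i m => (h (i + m + 1)).2.2 i m _ _ ⟨by omega, rfl⟩ ⟨by omega, rfl⟩⟩
    · rintro ⟨h1, h2, h3⟩ n
      refine ⟨?_, ?_, ?_⟩
      · rintro x ⟨_, rfl⟩; exact h1
      · rintro m x y ⟨_, rfl⟩ ⟨_, rfl⟩; exact h2 m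
      · rintro i m x y ⟨_, rfl⟩ ⟨_, rfl⟩; exact h3 i m
  have h2 : (cN (a 0) = 0 ∧ ∀ m, cN (a (m + 1)) = 4 * (cN (a m) + cs (a m))) ↔
      ∀ m, cN (a m) = NN (fun i => cs (a i)) m := by
    constructor
    · rintro ⟨h1, h2⟩ m
      induction m with
      | zero => exact h1
      | succ m ih => rw [h2, ih]; rfl
    · intro h
      refine ⟨h 0, fun m => ?_⟩
      rw [h, h]; rfl
  rw [h1, ← and_assoc, h2, names_iff hs]
  refine and_congr_right fun h3 => forall_congr' fun i => forall_congr' fun m => ?_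
  rw [← h3 m, abs_le]
  constructor
  · rintro ⟨h4, h5⟩
    have h4' : ((2 ^ i * cN (a m) + (Nat.unpair (cf (a i))).2 * 4 ^ m : ℕ) : ℝ) ≤
        (((Nat.unpair (cf (a i))).1 * 4 ^ m + (4 ^ m + 4 * 2 ^ i) : ℕ) : ℝ) := by exact_mod_cast h4
    have h5' : (((Nat.unpair (cf (a i))).1 * 4 ^ m : ℕ) : ℝ) ≤
        ((2 ^ i * cN (a m) + (Nat.unpair (cf (a i))).2 * 4 ^ m + (4 ^ m + 4 * 2 ^ i) : ℕ) : ℝ) := by
      exact_mod_cast h5
    push_cast at h4' h5'
    constructor <;> nlinarith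
  · rintro ⟨h4, h5⟩
    constructor
    · have : ((2 ^ i * cN (a m) + (Nat.unpair (cf (a i))).2 * 4 ^ m : ℕ) : ℝ) ≤
        (((Nat.unpair (cf (a i))).1 * 4 ^ m + (4 ^ m + 4 * 2 ^ i) : ℕ) : ℝ) := by
        push_cast
        nlinarith
      exact_mod_cast this
    · have : (((Nat.unpair (cf (a i))).1 * 4 ^ m : ℕ) : ℝ) ≤
        ((2 ^ i * cN (a m) + (Nat.unpair (cf (a i))).2 * 4 ^ m + (4 ^ m + 4 * 2 ^ i) : ℕ) : ℝ) := by
        push_cast
        nlinarith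
      exact_mod_cast this

/-- The pull-back of a `Σ¹₂` set of reals to sequences of digits. -/
theorem exists_K {A : Set ℝ} (hA : IsSigma12Real A) :
    ∃ K, KDef K ∧ ∀ s : ℕ → ℕ, (∀ i, s i ≤ 2) →
      (yv s ∈ A ↔ ∃ w : ℕ → ℕ, Bk K (fun i => Nat.pair (s i) (w i))) := by
  obtain ⟨B, ⟨R, hR, hB⟩, hA⟩ := hA
  refine ⟨KSum (fun l i j => i = j ∧ ¬ CC l) (KR R cf cu),
    kDef_sum (kDef_closed mDef_CC) (kDef_kR (mDef_of_computablePred hR) (by fun_prop)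
      (by fun_prop)), fun s hs => ?_⟩
  rw [hA]
  constructor
  · rintro ⟨f, hf, hfB⟩
    obtain ⟨u, hu⟩ := (hB f).1 hfB
    refine ⟨fun i => Nat.pair (f i) (Nat.pair (u i) (NN s i)), ?_⟩
    rw [bk_sum, bk_closed, CC_iff (by simpa [cs] using hs), bk_kR]
    refine ⟨⟨fun m => by simp [cN, cs], by simpa [cf, cs] using hf⟩, ?_⟩
    simpa [cf, cu] using hu
  · rintro ⟨w, hw⟩
    rw [bk_sum, bk_closed, CC_iff (by simpa [cs] using hs), bk_kR] at hw
    obtain ⟨⟨_, h1⟩, h2⟩ := hw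
    refine ⟨_, by simpa [cs] using h1, ?_⟩
    rw [hB]
    refine ⟨_, h2⟩

end Pool.Agent.H75.EK
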