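import Pool.Agent.H75.EK.Calc

/-!
Recursion, arithmetic and computable functions in the typed calculus of constructible relations.
-/

open Set Encodable

namespace Pool.Agent.H75.EK

universe u v w

section rec

variable {τ : Type u} [MType τ] {σ : Type v} [MType σ] {Γ : Type w} [MType Γ]

/-- A predicate in two curried variables. -/
theorem MDef.comp₂ {R : τ → σ → Prop} (hR : MDef (fun p : τ × σ => R p.1 p.2)) {f : Γ → τ}
    {g : Γ → σ} (hf : MFun f) (hg : MFun g) : MDef (fun c => R (f c) (g c)) :=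
  hR.comp (by fun_prop : MFun (fun c => (f c, g c)))

@[fun_prop]
theorem mFun_ite {P : Γ → Prop} [DecidablePred P] (hP : MDef P) {f g : Γ → τ} (hf : MFun f)
    (hg : MFun g) : MFun (fun c => if P c then f c else g c) := by
  unfold MFun
  refine MDef.congr (P := fun p : Γ × τ => (P p.1 ∧ f p.1 = p.2) ∨ (¬ P p.1 ∧ g p.1 = p.2)) ?_ ?_
  · have h1 : MDef (fun p : Γ × τ => P p.1) := hP.comp (by fun_prop)
    exact (h1.and (MDef.eq (by fun_prop) (by fun_prop))).or
      (h1.not.and (MDef.eq (by fun_prop) (by fun_prop)))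
  · rintro ⟨c, t⟩
    dsimp only
    split_ifs with h <;> simp [h]

/-- Iterating a relation. -/
def RecRel (F : Γ → τ → Prop) (G : Γ → ℕ → τ → τ → Prop) (c : Γ) : ℕ → τ → Prop
  | 0 => F c
  | n + 1 => fun z => ∃ y, RecRel F G c n y ∧ G c n y z

omit [MType τ] [MType Γ] in
theorem recRel_iff (F : Γ → τ → Prop) (G : Γ → ℕ → τ → τ → Prop) (c : Γ) (n : ℕ) (z : τ) :
    RecRel F G c n z ↔ ∃ l : List τ, (∃ y, l[0]? = some y ∧ F c y) ∧
      (∀ k, k < n → ∃ y z, l[k]? = some y ∧ l[k + 1]? = some z ∧ G c k y z) ∧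
      l[n]? = some z := by
  constructor
  · intro h
    have : ∃ l : List τ, l.length = n + 1 ∧ (∃ y, l[0]? = some y ∧ F c y) ∧
      (∀ k, k < n → ∃ y z, l[k]? = some y ∧ l[k + 1]? = some z ∧ G c k y z) ∧
      l[n]? = some z := by
      induction n generalizing z with
      | zero => exact ⟨[z], rfl, ⟨z, rfl, h⟩, by simp, rfl⟩
      | succ n ih =>
        obtain ⟨y, h1, h2⟩ := h
        obtain ⟨l, hl, ⟨y0, h3, h3'⟩, h4, h5⟩ := ih y h1
        refine ⟨l ++ [z], by simp [hl], ⟨y0, ?_, h3'⟩, ?_, ?_⟩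
        · rw [List.getElem?_append_left (by omega), h3]
        · intro k hk
          rcases Nat.lt_succ_iff_lt_or_eq.1 hk with hk | rfl
          · obtain ⟨a, b, ha, hb, hab⟩ := h4 k hk
            refine ⟨a, b, ?_, ?_, hab⟩
            · rw [List.getElem?_append_left (by omega), ha]
            · rw [List.getElem?_append_left (by omega), hb]
          · refine ⟨y, z, ?_, ?_, h2⟩
            · rw [List.getElem?_append_left (by omega), h5]
            · rw [List.getElem?_append_right (by omega)]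
              simp [hl]
        · rw [List.getElem?_append_right (by omega)]
          simp [hl]
    obtain ⟨l, -, h⟩ := this
    exact ⟨l, h⟩
  · rintro ⟨l, ⟨y, h1, h2⟩, h3, h4⟩
    induction n generalizing z with
    | zero =>
      rw [h1] at h4
      cases h4
      exact h2
    | succ n ih =>
      obtain ⟨a, b, ha, hb, hab⟩ := h3 n (by omega)
      rw [hb] at h4
      cases h4
      exact ⟨a, ih a (fun k hk => h3 k (by omega)) ha, hab⟩

theorem MDef.recRel {F : Γ → τ → Prop} {G : Γ → ℕ → τ → τ → Prop}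
    (hF : MDef (fun p : Γ × τ => F p.1 p.2))
    (hG : MDef (fun p : Γ × ℕ × τ × τ => G p.1 p.2.1 p.2.2.1 p.2.2.2)) :
    MDef (fun p : Γ × ℕ × τ => RecRel F G p.1 p.2.1 p.2.2) := by
  refine MDef.congr (P := fun p : Γ × ℕ × τ => ∃ l : List τ,
      (∃ y, l[0]? = some y ∧ F p.1 y) ∧
      (∀ k, k < p.2.1 → ∃ y z, l[k]? = some y ∧ l[k + 1]? = some z ∧ G p.1 k y z) ∧
      l[p.2.1]? = some p.2.2) ?_ (fun p => (recRel_iff F G p.1 p.2.1 p.2.2).symm)
  refine MDef.ex (MDef.and (MDef.ex (MDef.and (MDef.getElem? ?_ ?_ ?_) ?_))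
    (MDef.and (MDef.all (MDef.imp (MDef.lt ?_ ?_) (MDef.ex (MDef.ex (MDef.and
      (MDef.getElem? ?_ ?_ ?_) (MDef.and (MDef.getElem? ?_ ?_ ?_) ?_)))))) (MDef.getElem? ?_ ?_ ?_)))
  · fun_prop
  · fun_prop
  · fun_prop
  · exact hF.comp (f := fun q : ((Γ × ℕ × τ) × List τ) × τ => (q.1.1.1, q.2)) (by fun_prop)
  · fun_prop
  · fun_prop
  · fun_prop
  · fun_prop
  · fun_prop
  · fun_prop
  · fun_prop
  · fun_prop
  · exact hG.comp (f := fun q : ((((Γ × ℕ × τ) × List τ) × ℕ) × τ) × τ =>
      (q.1.1.1.1.1, q.1.1.2, q.1.2, q.2)) (by fun_prop)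
  · fun_prop
  · fun_prop
  · fun_prop

theorem mFun_natRec {f : Γ → τ} {g : Γ × ℕ × τ → τ} {n : Γ → ℕ} (hf : MFun f) (hg : MFun g)
    (hn : MFun n) : MFun (fun c => Nat.rec (f c) (fun k y => g (c, k, y)) (n c) : Γ → τ) := by
  suffices h : MFun (fun p : Γ × ℕ => (Nat.rec (f p.1) (fun k y => g (p.1, k, y)) p.2 : τ)) from
    mFun_comp (g := fun c => (c, n c)) h (by fun_prop)
  have h1 : MDef (fun p : Γ × τ => f p.1 = p.2) := hf
  have h2 : MDef (fun p : Γ × ℕ × τ × τ => g (p.1, p.2.1, p.2.2.1) = p.2.2.2) :=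
    MDef.eq (by fun_prop) (by fun_prop)
  have h := MDef.recRel (F := fun c y => f c = y) (G := fun c k y z => g (c, k, y) = z) h1 h2
  refine (h.comp (f := fun q : (Γ × ℕ) × τ => (q.1.1, q.1.2, q.2)) (by fun_prop)).congr ?_
  rintro ⟨⟨c, n⟩, z⟩
  dsimp only
  induction n generalizing z with
  | zero => exact Iff.rfl
  | succ n ih =>
    change (∃ y, RecRel _ _ c n y ∧ g (c, n, y) = z) ↔ _
    constructor
    · rintro ⟨y, h1, h2⟩
      rw [ih] at h1
      subst h1
      exact h2
    · intro h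
      exact ⟨_, (ih _).2 rfl, h⟩

end rec

section arith

variable {Γ : Type w} [MType Γ]

@[fun_prop]
theorem mFun_add {f g : Γ → ℕ} (hf : MFun f) (hg : MFun g) : MFun (fun c => f c + g c) := by
  suffices h : MFun (fun p : ℕ × ℕ => p.1 + p.2) from
    mFun_comp (g := fun c => (f c, g c)) h (by fun_prop)
  have := mFun_natRec (Γ := ℕ × ℕ) (f := fun p => p.1) (g := fun q => q.2.2 + 1) (n := fun p => p.2)
    (by fun_prop) (by fun_prop) (by fun_prop)
  convert this using 2 with p
  induction p.2 with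
  | zero => rfl
  | succ n ih => dsimp only at ih ⊢; rw [← ih]; rfl

@[fun_prop]
theorem mFun_mul {f g : Γ → ℕ} (hf : MFun f) (hg : MFun g) : MFun (fun c => f c * g c) := by
  suffices h : MFun (fun p : ℕ × ℕ => p.1 * p.2) from
    mFun_comp (g := fun c => (f c, g c)) h (by fun_prop)
  have := mFun_natRec (Γ := ℕ × ℕ) (f := fun p => 0) (g := fun q => q.2.2 + q.1.1)
    (n := fun p => p.2) (by fun_prop) (by fun_prop) (by fun_prop)
  convert this using 2 with p
  induction p.2 with
  | zero => rfl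
  | succ n ih => dsimp only at ih ⊢; rw [← ih]; rfl

@[fun_prop]
theorem mFun_pow {f g : Γ → ℕ} (hf : MFun f) (hg : MFun g) : MFun (fun c => f c ^ g c) := by
  suffices h : MFun (fun p : ℕ × ℕ => p.1 ^ p.2) from
    mFun_comp (g := fun c => (f c, g c)) h (by fun_prop)
  have := mFun_natRec (Γ := ℕ × ℕ) (f := fun p => 1) (g := fun q => q.2.2 * q.1.1)
    (n := fun p => p.2) (by fun_prop) (by fun_prop) (by fun_prop)
  convert this using 2 with p
  induction p.2 with
  | zero => rfl
  | succ n ih => dsimp only at ih ⊢; rw [← ih]; rfl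

@[fun_prop]
theorem mFun_pair {f g : Γ → ℕ} (hf : MFun f) (hg : MFun g) :
    MFun (fun c => Nat.pair (f c) (g c)) := by
  unfold Nat.pair
  exact mFun_ite (MDef.lt hf hg) (by fun_prop) (by fun_prop)

theorem mFun_unpair : MFun Nat.unpair := by
  unfold MFun
  refine MDef.congr (P := fun p : ℕ × ℕ × ℕ => p.1 = Nat.pair p.2.1 p.2.2) ?_ ?_
  · exact MDef.eq (by fun_prop) (by fun_prop)
  · rintro ⟨n, a, b⟩
    dsimp only
    constructor
    · rintro rfl; simp
    · intro h
      have := Nat.pair_unpair n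
      rw [h] at this
      exact this.symm

@[fun_prop]
theorem mFun_unpair₁ {f : Γ → ℕ} (hf : MFun f) : MFun (fun c => (Nat.unpair (f c)).1) :=
  mFun_fst (mFun_comp mFun_unpair hf)

@[fun_prop]
theorem mFun_unpair₂ {f : Γ → ℕ} (hf : MFun f) : MFun (fun c => (Nat.unpair (f c)).2) :=
  mFun_snd (mFun_comp mFun_unpair hf)

end arith

/-- Graphs of partial recursive functions are constructible. -/
theorem mDef_of_partrec {f : ℕ →. ℕ} (hf : Nat.Partrec f) :
    MDef (fun p : ℕ × ℕ => p.2 ∈ f p.1) := by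
  induction hf with
  | zero =>
    refine MDef.congr (P := fun p : ℕ × ℕ => p.2 = 0) (MDef.eq (by fun_prop) (by fun_prop)) ?_
    intro p
    simp [Pure.pure, PFun.pure]
  | succ =>
    refine MDef.congr (P := fun p : ℕ × ℕ => p.2 = p.1 + 1) (MDef.eq (by fun_prop) (by fun_prop)) ?_
    intro p
    simp
  | left =>
    refine MDef.congr (P := fun p : ℕ × ℕ => p.2 = p.1.unpair.1)
      (MDef.eq (by fun_prop) (by fun_prop)) ?_
    intro p
    simp
  | right =>
    refine MDef.congr (P := fun p : ℕ × ℕ => p.2 = p.1.unpair.2)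
      (MDef.eq (by fun_prop) (by fun_prop)) ?_
    intro p
    simp
  | @pair f g _ _ ihf ihg =>
    refine MDef.congr (P := fun p : ℕ × ℕ => ∃ a b : ℕ, a ∈ f p.1 ∧ b ∈ g p.1 ∧
      Nat.pair a b = p.2) ?_ ?_
    · refine MDef.ex (MDef.ex (MDef.and ?_ (MDef.and ?_ ?_)))
      · exact ihf.comp (f := fun q : ((ℕ × ℕ) × ℕ) × ℕ => (q.1.1.1, q.1.2)) (by fun_prop)
      · exact ihg.comp (f := fun q : ((ℕ × ℕ) × ℕ) × ℕ => (q.1.1.1, q.2)) (by fun_prop)
      · exact MDef.eq (by fun_prop) (by fun_prop)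
    · intro p
      simp [Seq.seq]
  | @comp f g _ _ ihf ihg =>
    refine MDef.congr (P := fun p : ℕ × ℕ => ∃ a : ℕ, a ∈ g p.1 ∧ p.2 ∈ f a) ?_ ?_
    · refine MDef.ex (MDef.and ?_ ?_)
      · exact ihg.comp (f := fun q : (ℕ × ℕ) × ℕ => (q.1.1, q.2)) (by fun_prop)
      · exact ihf.comp (f := fun q : (ℕ × ℕ) × ℕ => (q.2, q.1.2)) (by fun_prop)
    · intro p
      exact Part.mem_bind_iff.symm
  | @prec f g _ _ ihf ihg =>
    have h := MDef.recRel (Γ := ℕ) (τ := ℕ) (F := fun a y => y ∈ f a)
      (G := fun a k y z => z ∈ g (Nat.pair a (Nat.pair k y)))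
      (ihf.comp (f := fun q : ℕ × ℕ => (q.1, q.2)) (by fun_prop))
      (ihg.comp (f := fun q : ℕ × ℕ × ℕ × ℕ => (Nat.pair q.1 (Nat.pair q.2.1 q.2.2.1), q.2.2.2))
        (by fun_prop))
    refine (h.comp (f := fun q : ℕ × ℕ => (q.1.unpair.1, q.1.unpair.2, q.2))
      (by fun_prop)).congr ?_
    rintro ⟨m, z⟩
    simp only [Nat.unpaired]
    generalize m.unpair.1 = a
    generalize m.unpair.2 = n
    induction n generalizing z with
    | zero => exact Iff.rfl
    | succ n ih =>
      change (∃ y, RecRel _ _ a n y ∧ z ∈ g (Nat.pair a (Nat.pair n y))) ↔ _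
      simp only [ih]
      simp
  | @rfind f _ ihf =>
    refine MDef.congr (P := fun p : ℕ × ℕ => 0 ∈ f (Nat.pair p.1 p.2) ∧
      ∀ m : ℕ, m < p.2 → ∃ y : ℕ, y ∈ f (Nat.pair p.1 m) ∧ ¬ y = 0) ?_ ?_
    · refine MDef.and ?_ (MDef.all (MDef.imp (MDef.lt (by fun_prop) (by fun_prop))
        (MDef.ex (MDef.and ?_ (MDef.not (MDef.eq (by fun_prop) (by fun_prop)))))))
      · exact ihf.comp (f := fun q : ℕ × ℕ => (Nat.pair q.1 q.2, 0)) (by fun_prop)
      · exact ihf.comp (f := fun q : ((ℕ × ℕ) × ℕ) × ℕ => (Nat.pair q.1.1.1 q.1.2, q.2))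
          (by fun_prop)
    · intro p
      have h := @Nat.mem_rfind (fun n => (fun m => decide (m = 0)) <$> f (Nat.pair p.1 n)) p.2
      refine Iff.trans ?_ h.symm
      simp

/-- The Mathlib encoding of `α` is a constructible function. -/
class MEnc (α : Type u) [MType α] [Encodable α] : Prop where
  mfun : MFun (encode : α → ℕ)

instance : MEnc ℕ := ⟨mFun_id⟩

instance {α : Type u} {β : Type v} [MType α] [Encodable α] [MEnc α] [MType β] [Encodable β]
    [MEnc β] : MEnc (α × β) where
  mfun := by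
    have h1 := MEnc.mfun (α := α)
    have h2 := MEnc.mfun (α := β)
    have : (encode : α × β → ℕ) = fun p => Nat.pair (encode p.1) (encode p.2) := by
      ext1 ⟨a, b⟩; rfl
    rw [this]
    fun_prop

instance {α : Type u} [MType α] [Encodable α] [MEnc α] : MEnc (List α) where
  mfun := by
    have h1 := MEnc.mfun (α := α)
    have hF : MDef (fun p : List α × ℕ => p.2 = 0) := MDef.eq (by fun_prop) (by fun_prop)
    have hG : MDef (fun p : List α × ℕ × ℕ × ℕ => ∃ i : ℕ, ∃ a : α, i + p.2.1 + 1 = p.1.length ∧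
        p.1[i]? = some a ∧ p.2.2.2 = Nat.pair (encode a) p.2.2.1 + 1) := by
      refine MDef.ex (MDef.ex (MDef.and (MDef.eq ?_ ?_) (MDef.and (MDef.getElem? ?_ ?_ ?_)
        (MDef.eq ?_ ?_)))) <;> fun_prop
    have h := MDef.recRel (Γ := List α) (τ := ℕ) (F := fun _ y => y = 0)
      (G := fun l k y z => ∃ i : ℕ, ∃ a : α, i + k + 1 = l.length ∧ l[i]? = some a ∧
        z = Nat.pair (encode a) y + 1) hF hG
    refine (h.comp (f := fun q : List α × ℕ => (q.1, q.1.length, q.2)) (by fun_prop)).congr ?_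
    rintro ⟨l, c⟩
    dsimp only
    have key : ∀ k y, k ≤ l.length → (RecRel (fun _ y => y = 0)
        (fun l k y z => ∃ i : ℕ, ∃ a : α, i + k + 1 = l.length ∧ l[i]? = some a ∧
        z = Nat.pair (encode a) y + 1) l k y ↔ encode (l.drop (l.length - k)) = y) := by
      intro k
      induction k with
      | zero =>
        intro y _
        simp [RecRel, eq_comm]
      | succ k ih =>
        intro y hk
        have hi : l.length - (k + 1) < l.length := by omega
        have h3 : l.drop (l.length - (k + 1)) = l[l.length - (k + 1)] :: l.drop (l.length - k) := by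
          rw [List.drop_eq_getElem_cons hi]
          congr 2
          omega
        rw [h3]
        constructor
        · rintro ⟨z, h4, i, a, h5, h6, rfl⟩
          rw [ih _ (by omega)] at h4
          rw [← h4]
          have : i = l.length - (k + 1) := by omega
          subst this
          rw [List.getElem?_eq_getElem hi] at h6
          cases h6
          simp [encode_list_cons]
        · intro h4
          refine ⟨_, (ih _ (by omega)).2 rfl, l.length - (k + 1), l[l.length - (k + 1)], by omega,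
            List.getElem?_eq_getElem hi, ?_⟩
          rw [← h4]
          simp [encode_list_cons]
    rw [key _ _ le_rfl]
    simp

theorem mFun_of_computable {α : Type u} {β : Type v} [MType α] [Primcodable α] [MEnc α] [MType β]
    [Primcodable β] [MEnc β] {f : α → β} (hf : Computable f) : MFun f := by
  have h := mDef_of_partrec hf
  have h1 := MEnc.mfun (α := α)
  have h2 := MEnc.mfun (α := β)
  refine (h.comp (f := fun p : α × β => (encode p.1, encode p.2)) (by fun_prop)).congr ?_
  rintro ⟨a, b⟩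
  simp
  exact eq_comm

theorem mDef_of_computablePred {α : Type u} [MType α] [Primcodable α] [MEnc α] {P : α → Prop}
    (hP : ComputablePred P) : MDef P := by
  obtain ⟨_, hP⟩ := hP
  have h := mDef_of_partrec hP
  have h1 := MEnc.mfun (α := α)
  refine (h.comp (f := fun p : α => (encode p, encode true)) (by fun_prop)).congr ?_
  intro a
  by_cases h : P a <;> simp [h]

end Pool.Agent.H75.EK
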