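import Mathlib

/-!
Definitions for the statement about `Σ¹₂` decompositions of the line into rationally independent
sets: Goedel's constructible hierarchy inside `ZFSet`, lightface `Σ¹₂` sets of reals, and the
codes of reals as sets.
-/

open FirstOrder Set

namespace Pool.Agent.H75.EK

/-! ### The constructible universe -/

/-- The only relation symbol of the language of set theory is binary. -/
inductive EpsRel : ℕ → Type
  | mem : EpsRel 2

/-- The first-order language of set theory (one binary relation symbol, read as membership). -/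
def LSet : FirstOrder.Language.{0, 0} := ⟨fun _ => Empty, EpsRel⟩

/-- A set `A` as a structure `(A, ∈)` for the language of set theory. -/
instance epsStructure (A : ZFSet.{0}) : LSet.Structure A where
  funMap := fun f _ => Empty.elim f
  RelMap := fun r v => match r, v with
    | EpsRel.mem, v => ((v 0 : A) : ZFSet.{0}) ∈ ((v 1 : A) : ZFSet.{0})

/-- `Def A`: the set of the subsets of `A` that are first-order definable, with parameters from
`A`, over the structure `(A, ∈)`. -/
noncomputable def Def (A : ZFSet.{0}) : ZFSet.{0} :=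
  ZFSet.sep (fun x => (Set.univ : Set A).Definable₁ LSet {a : A | (a : ZFSet.{0}) ∈ x})
    (ZFSet.powerset A)

/-- The constructible hierarchy: `L_α` is the union of the sets `Def (L_β)` for `β < α`. -/
noncomputable def Lset (α : Ordinal.{0}) : ZFSet.{0} :=
  ZFSet.iUnion fun β : Set.Iio α => Def (Lset β)
termination_by α
decreasing_by exact β.2

/-- A set is constructible if it belongs to some level of the constructible hierarchy. -/
def InL (x : ZFSet.{0}) : Prop := ∃ α, x ∈ Lset α

/-- The set of the von Neumann naturals `n` with `n ∈ X`. -/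
noncomputable def natSet (X : Set ℕ) : ZFSet.{0} :=
  ZFSet.range (fun n : X => (n.1 : Ordinal.{0}).toZFSet)

/-- The element `f` of Baire space as a set of ordered pairs of von Neumann naturals. -/
noncomputable def graphSet (f : ℕ → ℕ) : ZFSet.{0} :=
  ZFSet.range (fun n : ℕ => ZFSet.pair (n : Ordinal.{0}).toZFSet (f n : Ordinal.{0}).toZFSet)

/-- An enumeration of the rational numbers. -/
noncomputable def ratEnum (k : ℕ) : ℚ :=
  ((Nat.unpair k).1 - (Nat.unpair (Nat.unpair k).2).1 : ℚ) / ((Nat.unpair (Nat.unpair k).2).2 + 1)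

/-- The left Dedekind cut of the real `x`, as a set of von Neumann naturals. -/
noncomputable def cutSet (x : ℝ) : ZFSet.{0} := natSet {k | (ratEnum k : ℝ) < x}

/-! ### Lightface `Σ¹₂` sets -/

/-- The restriction `a|n` as a list. -/
def res {α : Type*} (a : ℕ → α) (n : ℕ) : List α := (List.range n).map a

/-- Lightface `Σ¹₂` subsets of Baire space: `∃ u ∀ v ∃ n R (f|n, u|n, v|n)` with `R` computable. -/
def IsSigma12 (B : Set (ℕ → ℕ)) : Prop :=
  ∃ R : List ℕ × List ℕ × List ℕ → Prop, ComputablePred R ∧
    ∀ f, f ∈ B ↔ ∃ u : ℕ → ℕ, ∀ v : ℕ → ℕ, ∃ n, R (res f n, res u n, res v n)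

/-- The dyadic rational `(a - b) / 2 ^ i` coded by `k = ⟨a, b⟩` at precision `i`. -/
noncomputable def dya (k i : ℕ) : ℝ := (((Nat.unpair k).1 : ℝ) - (Nat.unpair k).2) / 2 ^ i

/-- `f` is a name of the real `x`: the `i`-th coded dyadic rational is at distance at most
`2 ^ (-i)` from `x`. -/
def Names (f : ℕ → ℕ) (x : ℝ) : Prop := ∀ i, |x - dya (f i) i| ≤ 1 / 2 ^ i

/-- Lightface `Σ¹₂` sets of reals, the reals being coded by their names: `A` is the set of the
reals that have a name in some `Σ¹₂` set. -/
def IsSigma12Real (A : Set ℝ) : Prop :=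
  ∃ B, IsSigma12 B ∧ ∀ x, x ∈ A ↔ ∃ f, Names f x ∧ f ∈ B

end Pool.Agent.H75.EK
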