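import Pool.Agent.H75.EK.Defs

/-!
The constructible hierarchy inside `ZFSet`, and separation for bounded formulas in `L`.
-/

open FirstOrder Set

namespace Pool.Agent.H75.EK

theorem mem_Lset {α : Ordinal.{0}} {x : ZFSet.{0}} :
    x ∈ Lset α ↔ ∃ β < α, x ∈ Def (Lset β) := by
  rw [Lset]; simp

theorem mem_Def {A x : ZFSet.{0}} :
    x ∈ Def A ↔ x ⊆ A ∧ (Set.univ : Set A).Definable₁ LSet {a : A | (a : ZFSet.{0}) ∈ x} := by
  simp [Def, ZFSet.mem_sep]

theorem Lset_mono {α β : Ordinal.{0}} (h : α ≤ β) : Lset α ⊆ Lset β := by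
  intro x hx
  rw [mem_Lset] at hx ⊢
  obtain ⟨γ, hγ, hx⟩ := hx
  exact ⟨γ, hγ.trans_le h, hx⟩

theorem Lset_transitive (α : Ordinal.{0}) : (Lset α).IsTransitive := by
  intro x hx y hy
  rw [mem_Lset] at hx
  obtain ⟨γ, hγ, hx⟩ := hx
  exact Lset_mono hγ.le ((mem_Def.1 hx).1 hy)

theorem InL.trans {x y : ZFSet.{0}} (hy : InL y) (h : x ∈ y) : InL x := by
  obtain ⟨α, hα⟩ := hy
  exact ⟨α, (Lset_transitive α).mem_trans h hα⟩

theorem self_mem_Def (A : ZFSet.{0}) : A ∈ Def A := by
  rw [mem_Def]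
  refine ⟨fun _ h => h, ?_⟩
  have : {a : A | (a : ZFSet.{0}) ∈ A} = Set.univ := by
    ext a; simp
  rw [this]
  unfold Set.Definable₁
  simp

theorem inL_Lset (α : Ordinal.{0}) : InL (Lset α) :=
  ⟨Order.succ α, mem_Lset.2 ⟨α, Order.lt_succ α, self_mem_Def _⟩⟩

/-- Bounded formulas, semantically, with named variables. -/
inductive D0 : ((ℕ → ZFSet.{0}) → Prop) → Prop
  | mem (i j : ℕ) : D0 (fun v => v i ∈ v j)
  | eq (i j : ℕ) : D0 (fun v => v i = v j)
  | not {P : (ℕ → ZFSet.{0}) → Prop} : D0 P → D0 (fun v => ¬ P v)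
  | and {P Q : (ℕ → ZFSet.{0}) → Prop} : D0 P → D0 Q → D0 (fun v => P v ∧ Q v)
  | bex (i j : ℕ) (hij : i ≠ j) {P : (ℕ → ZFSet.{0}) → Prop} :
      D0 P → D0 (fun v => ∃ a ∈ v j, P (Function.update v i a))

theorem D0.or {P Q : (ℕ → ZFSet.{0}) → Prop} (hP : D0 P) (hQ : D0 Q) :
    D0 (fun v => P v ∨ Q v) := by
  have := (hP.not.and hQ.not).not
  convert this using 2
  tauto

theorem D0.imp {P Q : (ℕ → ZFSet.{0}) → Prop} (hP : D0 P) (hQ : D0 Q) :
    D0 (fun v => P v → Q v) := by
  have := (hP.and hQ.not).not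
  convert this using 2
  tauto

theorem D0.ball (i j : ℕ) (hij : i ≠ j) {P : (ℕ → ZFSet.{0}) → Prop} (hP : D0 P) :
    D0 (fun v => ∀ a ∈ v j, P (Function.update v i a)) := by
  have := (D0.bex i j hij hP.not).not
  convert this using 2
  push Not
  rfl

theorem definable_ex_update {L : FirstOrder.Language.{0, 0}} {M : Type*} [L.Structure M]
    {B : Set M} {S : Set (ℕ → M)} (h : B.Definable L S) (i : ℕ) :
    B.Definable L {v : ℕ → M | ∃ a, Function.update v i a ∈ S} := by
  obtain ⟨φ, rfl⟩ := h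
  let g : ℕ → ℕ ⊕ Fin 1 := fun j => if j = i then Sum.inr 0 else Sum.inl j
  refine ⟨(Language.BoundedFormula.relabel g φ : L[[B]].BoundedFormula ℕ 1).ex, ?_⟩
  ext v
  simp only [mem_ofPred_eq, Language.Formula.Realize, Language.BoundedFormula.realize_ex,
    Language.BoundedFormula.realize_relabel]
  refine exists_congr fun a => ?_
  have h1 : (Sum.elim v ((Fin.snoc default a : Fin (0 + 1) → M) ∘ Fin.castAdd 0) ∘ g)
      = Function.update v i a := by
    ext j
    by_cases hj : j = i
    · subst hj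
      simp [g, Fin.snoc]
    · simp [g, hj]
  rw [h1]
  have h2 : ((Fin.snoc default a : Fin (0 + 1) → M) ∘ Fin.natAdd 1 : Fin 0 → M) = default :=
    Subsingleton.elim _ _
  rw [h2]

theorem definable_subst {L : FirstOrder.Language.{0, 0}} {M : Type*} [L.Structure M]
    {S : Set (ℕ → M)} (h : (Set.univ : Set M).Definable L S) (v : ℕ → M) :
    (Set.univ : Set M).Definable₁ L {a : M | Function.update v 0 a ∈ S} := by
  obtain ⟨φ, rfl⟩ := h
  let tf : ℕ → L[[(Set.univ : Set M)]].Term (Fin 1) := fun j =>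
    if j = 0 then Language.Term.var 0 else (L.con (⟨v j, trivial⟩ : (Set.univ : Set M))).term
  refine ⟨Language.BoundedFormula.subst φ tf, ?_⟩
  ext w
  simp only [mem_ofPred_eq, Language.Formula.Realize, Language.BoundedFormula.realize_subst]
  have : (fun a => Language.Term.realize w (tf a)) = Function.update v 0 (w 0) := by
    ext j
    by_cases hj : j = 0
    · subst hj
      simp [tf]
    · simp [tf, hj]
  rw [this]

theorem D0.definable {P : (ℕ → ZFSet.{0}) → Prop} (hP : D0 P) {A : ZFSet.{0}}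
    (hA : A.IsTransitive) :
    (Set.univ : Set A).Definable LSet {v : ℕ → A | P (fun i => (v i : ZFSet.{0}))} := by
  induction hP with
  | mem i j =>
    refine ⟨Language.Relations.formula₂ (L := LSet[[(Set.univ : Set A)]])
      (Sum.inl EpsRel.mem) (Language.Term.var i) (Language.Term.var j), ?_⟩
    ext v
    simp only [mem_ofPred_eq]
    rfl
  | eq i j =>
    refine ⟨Language.Term.equal (Language.Term.var i) (Language.Term.var j), ?_⟩
    ext v
    simp only [mem_ofPred_eq, Language.Formula.realize_equal, Language.Term.realize_var]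
    exact Subtype.ext_iff.symm
  | not _ ih => exact ih.compl
  | and _ _ ih1 ih2 => exact ih1.inter ih2
  | @bex i j hij P _ ih =>
    have hmem : (Set.univ : Set A).Definable LSet
        {v : ℕ → A | (v i : ZFSet.{0}) ∈ (v j : ZFSet.{0})} := by
      refine ⟨Language.Relations.formula₂ (L := LSet[[(Set.univ : Set A)]])
        (Sum.inl EpsRel.mem) (Language.Term.var i) (Language.Term.var j), ?_⟩
      ext v
      simp only [mem_ofPred_eq]
      rfl
    convert definable_ex_update (hmem.inter ih) i using 1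
    ext v
    simp only [mem_ofPred_eq, mem_inter_iff]
    have key : ∀ a : A, (fun k => ((Function.update v i a k : A) : ZFSet.{0}))
        = Function.update (fun k => (v k : ZFSet.{0})) i a := by
      intro a
      ext1 k
      by_cases hk : k = i
      · subst hk; simp
      · simp [hk]
    constructor
    · rintro ⟨a, ha, h⟩
      have haA : a ∈ A := hA.mem_trans ha (v j).2
      refine ⟨⟨a, haA⟩, ?_, ?_⟩
      · simpa [hij.symm] using ha
      · rw [key]; exact h
    · rintro ⟨a, ha, h⟩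
      refine ⟨a, ?_, ?_⟩
      · simpa [hij.symm] using ha
      · rw [key] at h; exact h

theorem D0.sep_mem_Def {P : (ℕ → ZFSet.{0}) → Prop} (hP : D0 P) {A : ZFSet.{0}}
    (hA : A.IsTransitive) {v : ℕ → ZFSet.{0}} (hv : ∀ i, v i ∈ A) :
    ZFSet.sep (fun x => P (Function.update v 0 x)) A ∈ Def A := by
  rw [mem_Def]
  refine ⟨ZFSet.sep_subset, ?_⟩
  convert definable_subst (hP.definable hA) (fun i => (⟨v i, hv i⟩ : A)) using 1
  ext a
  simp only [mem_ofPred_eq, ZFSet.mem_sep]
  have : (fun k => ((Function.update (fun i => (⟨v i, hv i⟩ : A)) 0 a k : A) : ZFSet.{0}))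
        = Function.update v 0 a := by
    ext1 k
    by_cases hk : k = 0
    · subst hk; simp
    · simp [hk]
  rw [this]
  simp

/-- Collection: small families of constructible sets lie in one level. -/
theorem exists_level {ι : Type*} [Small.{0} ι] (f : ι → ZFSet.{0}) (h : ∀ i, InL (f i)) :
    ∃ γ, ∀ i, f i ∈ Lset γ := by
  choose g hg using h
  exact ⟨⨆ i, g i, fun i => Lset_mono (Ordinal.le_iSup g i) (hg i)⟩

/-- Separation for bounded formulas in `L`. The ambient set is the value of variable `1`. -/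
theorem D0.sep {P : (ℕ → ZFSet.{0}) → Prop} (hP : D0 P)
    {v : ℕ → ZFSet.{0}} (hv : ∀ i, InL (v i)) :
    InL (ZFSet.sep (fun x => P (Function.update v 0 x)) (v 1)) := by
  obtain ⟨γ, hγ⟩ := exists_level v hv
  have h := ((D0.mem 0 1).and hP).sep_mem_Def (Lset_transitive γ) hγ
  refine ⟨Order.succ γ, mem_Lset.2 ⟨γ, Order.lt_succ γ, ?_⟩⟩
  convert h using 1
  ext x
  simp only [ZFSet.mem_sep, Function.update_self]
  constructor
  · rintro ⟨h1, h2⟩
    exact ⟨(Lset_transitive γ).mem_trans h1 (hγ 1), by simpa using h1, h2⟩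
  · rintro ⟨_, h1, h2⟩
    exact ⟨by simpa using h1, h2⟩

theorem inL_empty : InL ∅ := by
  have h := (D0.not (D0.eq 0 0)).sep (v := fun _ => Lset 0) (fun _ => inL_Lset 0)
  convert h using 1
  ext x
  simp

theorem InL.pair_set {x y : ZFSet.{0}} (hx : InL x) (hy : InL y) : InL {x, y} := by
  obtain ⟨γ, hγ⟩ := exists_level (ι := Bool) (fun b => if b then x else y)
    (by intro b; cases b <;> simpa)
  have h1 := hγ true
  have h2 := hγ false
  simp only [if_true, Bool.false_eq_true, if_false] at h1 h2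
  have h := ((D0.eq 0 2).or (D0.eq 0 3)).sep
    (v := fun i => if i = 2 then x else if i = 3 then y else Lset γ)
    (by intro i; split_ifs <;> first | assumption | exact inL_Lset γ)
  convert h using 1
  ext z
  simp only [ZFSet.mem_pair, ZFSet.mem_sep]
  constructor
  · rintro (rfl | rfl)
    · exact ⟨h1, by simp⟩
    · exact ⟨h2, by simp⟩
  · rintro ⟨_, h⟩
    simpa using h

theorem InL.pair {x y : ZFSet.{0}} (hx : InL x) (hy : InL y) : InL (ZFSet.pair x y) := by
  have h1 : InL {x} := by
    have := hx.pair_set hx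
    rwa [ZFSet.pair_eq_singleton] at this
  exact h1.pair_set (hx.pair_set hy)

/-- `v i = {v j, v k}` is bounded. -/
theorem D0.upair (i j k : ℕ) : D0 (fun v => v i = ({v j, v k} : ZFSet.{0})) := by
  have h := ((D0.mem j i).and (D0.mem k i)).and
    (D0.ball (i + j + k + 1) i (by omega) ((D0.eq (i + j + k + 1) j).or (D0.eq (i + j + k + 1) k)))
  convert h using 2 with v
  have e1 : ∀ a, Function.update v (i + j + k + 1) a (i + j + k + 1) = a := by simp
  have e2 : ∀ a, Function.update v (i + j + k + 1) a j = v j := by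
    intro a; rw [Function.update_of_ne (by omega)]
  have e3 : ∀ a, Function.update v (i + j + k + 1) a k = v k := by
    intro a; rw [Function.update_of_ne (by omega)]
  simp only [e1, e2, e3]
  constructor
  · intro h
    rw [h]
    simp
  · rintro ⟨⟨h1, h2⟩, h3⟩
    ext z
    rw [ZFSet.mem_pair]
    constructor
    · exact h3 z
    · rintro (rfl | rfl) <;> assumption

/-- `v i = ⟨v j, v k⟩` is bounded. -/
theorem D0.pair (i j k : ℕ) : D0 (fun v => v i = ZFSet.pair (v j) (v k)) := by
  have h := (D0.bex (i + j + k + 1) i (by omega) (D0.bex (i + j + k + 2) i (by omega)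
    (((D0.upair (i + j + k + 1) j j).and (D0.upair (i + j + k + 2) j k)).and
      (D0.upair i (i + j + k + 1) (i + j + k + 2)))))
  convert h using 2 with v
  have e0 : ∀ a b, Function.update (Function.update v (i + j + k + 1) a) (i + j + k + 2) b
      (i + j + k + 1) = a := by
    intro a b; rw [Function.update_of_ne (by omega)]; simp
  have e1 : ∀ a b, Function.update (Function.update v (i + j + k + 1) a) (i + j + k + 2) b
      (i + j + k + 2) = b := by
    intro a b; simp
  have e2 : ∀ a b, Function.update (Function.update v (i + j + k + 1) a) (i + j + k + 2) b j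
      = v j := by
    intro a b; rw [Function.update_of_ne (by omega), Function.update_of_ne (by omega)]
  have e3 : ∀ a b, Function.update (Function.update v (i + j + k + 1) a) (i + j + k + 2) b k
      = v k := by
    intro a b; rw [Function.update_of_ne (by omega), Function.update_of_ne (by omega)]
  have e4 : ∀ a b, Function.update (Function.update v (i + j + k + 1) a) (i + j + k + 2) b i
      = v i := by
    intro a b; rw [Function.update_of_ne (by omega), Function.update_of_ne (by omega)]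
  have e5 : ∀ a, Function.update v (i + j + k + 1) a i = v i := by
    intro a; rw [Function.update_of_ne (by omega)]
  simp only [e0, e1, e2, e3, e4, e5]
  constructor
  · intro h
    rw [h]
    refine ⟨{v j}, by simp [ZFSet.pair], {v j, v k}, by simp [ZFSet.pair], ?_⟩
    simp [ZFSet.pair]
  · rintro ⟨a, ha, b, hb, ⟨h1, h2⟩, h3⟩
    rw [h3, h1, h2]
    simp [ZFSet.pair]

/-- `⟨v i, v j⟩ ∈ v k` is bounded. -/
theorem D0.pairMem (i j k : ℕ) : D0 (fun v => ZFSet.pair (v i) (v j) ∈ v k) := by
  have h := D0.bex (i + j + k + 1) k (by omega) (D0.pair (i + j + k + 1) i j)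
  convert h using 2 with v
  have e0 : ∀ a, Function.update v (i + j + k + 1) a (i + j + k + 1) = a := by
    intro a; simp
  have e1 : ∀ a, Function.update v (i + j + k + 1) a i = v i := by
    intro a; rw [Function.update_of_ne (by omega)]
  have e2 : ∀ a, Function.update v (i + j + k + 1) a j = v j := by
    intro a; rw [Function.update_of_ne (by omega)]
  simp only [e0, e1, e2]
  simp

/-- A convenient valuation: `1 ↦ a`, `2 ↦ b`, `3 ↦ c`, ..., and `∅` elsewhere. -/
def val (l : List ZFSet.{0}) : ℕ → ZFSet.{0}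
  | 0 => ∅
  | n + 1 => l.getD n ∅

theorem inL_val {l : List ZFSet.{0}} (h : ∀ a ∈ l, InL a) : ∀ i, InL (val l i)
  | 0 => inL_empty
  | n + 1 => by
    change InL (l.getD n ∅)
    rw [List.getD_eq_getElem?_getD]
    rcases hn : l[n]? with _ | a
    · simpa using inL_empty
    · simpa using h a (List.mem_of_getElem? hn)

/-- Separation, in the form used below. -/
theorem sepL {P : (ℕ → ZFSet.{0}) → Prop} (hP : D0 P) (a : ZFSet.{0}) (l : List ZFSet.{0})
    (ha : InL a) (h : ∀ a ∈ l, InL a) :
    ∃ s, InL s ∧ ∀ x, x ∈ s ↔ x ∈ a ∧ P (Function.update (val (a :: l)) 0 x) := by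
  refine ⟨_, hP.sep (v := val (a :: l)) (inL_val (by simpa using ⟨ha, h⟩)), fun x => ?_⟩
  rw [ZFSet.mem_sep]
  simp [val]

theorem InL.prod {a b : ZFSet.{0}} (ha : InL a) (hb : InL b) : InL (ZFSet.prod a b) := by
  obtain ⟨γ, hγ⟩ := exists_level (ι := a × b) (fun p => ZFSet.pair p.1 p.2)
    (fun p => (ha.trans p.1.2).pair (hb.trans p.2.2))
  obtain ⟨s, hs, h⟩ := sepL (D0.bex 4 2 (by decide) (D0.bex 5 3 (by decide) (D0.pair 0 4 5)))
    (Lset γ) [a, b] (inL_Lset γ) (by simpa using ⟨ha, hb⟩)
  convert hs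
  ext x
  rw [h]
  simp [val, Function.update, ZFSet.mem_prod]
  rintro y hy z hz rfl
  exact hγ ⟨⟨y, hy⟩, ⟨z, hz⟩⟩

/-- The set of the constructible subsets of a constructible set. -/
theorem InL.pow {a : ZFSet.{0}} (ha : InL a) : ∃ p, InL p ∧ ∀ x, x ∈ p ↔ InL x ∧ x ⊆ a := by
  obtain ⟨γ, hγ⟩ := exists_level (ι := {x : ZFSet.powerset a // InL x}) (fun p => (p : ZFSet.{0}))
    (fun p => p.2)
  obtain ⟨s, hs, h⟩ := sepL (D0.ball 4 0 (by decide) (D0.mem 4 2))
    (Lset γ) [a] (inL_Lset γ) (by simpa using ha)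
  refine ⟨s, hs, fun x => ?_⟩
  rw [h]
  simp [val, Function.update]
  constructor
  · rintro ⟨h1, h2⟩
    exact ⟨⟨γ, h1⟩, h2⟩
  · rintro ⟨h1, h2⟩
    exact ⟨hγ ⟨⟨x, by simpa using h2⟩, h1⟩, h2⟩

/-- All ordinals are constructible. -/
theorem inL_ordinal (α : Ordinal.{0}) : InL α.toZFSet := by
  induction α using WellFoundedLT.induction with
  | _ α ih =>
    obtain ⟨γ, hγ⟩ := exists_level (ι := Set.Iio α) (fun β => (β : Ordinal.{0}).toZFSet)
      (fun β => ih β β.2)
    -- the set of the ordinals of `L_γ`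
    obtain ⟨s, hs, h⟩ := sepL (D0.and
        (D0.ball 4 0 (by decide) (D0.ball 5 4 (by decide) (D0.mem 5 0)))
        (D0.ball 6 0 (by decide) (D0.ball 4 6 (by decide) (D0.ball 5 4 (by decide) (D0.mem 5 6)))))
      (Lset γ) [] (inL_Lset γ) (by simp)
    have h' : ∀ x, x ∈ s ↔ x ∈ Lset γ ∧ x.IsOrdinal := by
      intro x
      rw [h, ZFSet.isOrdinal_iff_forall_mem_isTransitive]
      simp [Function.update, ZFSet.IsTransitive, ZFSet.subset_def]
    have hord : s.IsOrdinal := by
      rw [ZFSet.isOrdinal_iff_forall_mem_isOrdinal]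
      refine ⟨fun x hx y hy => ?_, fun y hy => ((h' y).1 hy).2⟩
      rw [h'] at hx ⊢
      exact ⟨(Lset_transitive γ).mem_trans hy hx.1, hx.2.mem hy⟩
    have hsub : α.toZFSet ⊆ s := by
      intro x hx
      obtain ⟨β, hβ, rfl⟩ := Ordinal.mem_toZFSet_iff.1 hx
      exact (h' _).2 ⟨hγ ⟨β, hβ⟩, ZFSet.isOrdinal_toZFSet β⟩
    rcases (ZFSet.isOrdinal_toZFSet α).eq_or_mem_of_subset hord hsub with h1 | h1
    · rw [h1]; exact hs
    · exact hs.trans h1

end Pool.Agent.H75.EK
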