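import Pool.Agent.H75.EK.Code

/-!
Covering the line by `Σ¹₂` rationally independent sets: the main argument.
-/

open Set

namespace Pool.Agent.H75.EK

theorem indep_aux {A : Set ℝ} (h : LinearIndepOn ℚ id A) {p p' x x' : ℝ} (hp : p ≠ p')
    (h1 : p + x ∈ A) (h2 : p' + x ∈ A) (h3 : p + x' ∈ A) (h4 : p' + x' ∈ A) : x = x' := by
  by_contra hx
  rw [linearIndepOn_iff] at h
  classical
  let l : ℝ →₀ ℚ := Finsupp.single (p + x) 1 - Finsupp.single (p' + x) 1
    - Finsupp.single (p + x') 1 + Finsupp.single (p' + x') 1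
  have hl : l ∈ Finsupp.supported ℚ ℚ A := by
    refine add_mem (sub_mem (sub_mem ?_ ?_) ?_) ?_ <;>
    exact Finsupp.single_mem_supported _ _ (by assumption)
  have h0 : Finsupp.linearCombination ℚ (id : ℝ → ℝ) l = 0 := by
    simp only [l, map_add, map_sub, Finsupp.linearCombination_single, one_smul, id]
    ring
  have hz := h l hl h0
  have h5 := DFunLike.congr_fun hz (p + x)
  simp only [l, Finsupp.add_apply, Finsupp.sub_apply, Finsupp.single_apply, Finsupp.zero_apply]
    at h5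
  have e1 : ¬ (p' + x = p + x) := fun h => hp (by linarith)
  have e2 : ¬ (p + x' = p + x) := fun h => hx (by linarith)
  rw [if_pos trivial, if_neg e1, if_neg e2] at h5
  split_ifs at h5 <;> norm_num at h5

/-- The characteristic function of a set. -/
noncomputable def chi (X : Set ℕ) (n : ℕ) : ℕ := by
  classical exact if n ∈ X then 1 else 0

theorem chi_eq_one {X : Set ℕ} {n : ℕ} : chi X n = 1 ↔ n ∈ X := by
  unfold chi; split_ifs with h <;> simp [h]

theorem chi_lt (X : Set ℕ) (n : ℕ) : chi X n < 2 := by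
  unfold chi; split_ifs <;> simp

theorem mFun_chi {X : Set ℕ} (hX : MDef (· ∈ X)) : MFun (chi X) := by
  classical
  have : chi X = fun n => if n ∈ X then 1 else 0 := by
    ext n; unfold chi; congr
  rw [this]
  exact mFun_ite hX (by fun_prop) (by fun_prop)

/-- The constructible elements of the Cantor space. -/
def CR : Set (ℕ → ℕ) := {P | MFun P ∧ ∀ i, P i < 2}

theorem countable_sets (h : CR.Countable) : {D : Set (List ℕ) | MDef (· ∈ D)}.Countable := by
  have henc : MFun (Encodable.encode : List ℕ → ℕ) := MEnc.mfun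
  refine Set.countable_of_injective_of_countable_image
    (f := fun D => chi (Encodable.encode '' D)) ?_ ?_
  · intro D _ D' _ heq
    have h1 : Encodable.encode '' D = Encodable.encode '' D' := by
      ext n
      rw [← chi_eq_one, ← chi_eq_one]
      simp only at heq
      rw [heq]
    exact Encodable.encode_injective.image_injective h1
  · refine h.mono ?_
    rintro _ ⟨D, hD, rfl⟩
    refine ⟨mFun_chi ?_, chi_lt _⟩
    refine MDef.congr (P := fun n : ℕ => ∃ l : List ℕ, l ∈ D ∧ Encodable.encode l = n) ?_ ?_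
    · exact MDef.ex (MDef.and (MDef.comp hD (by fun_prop)) (MDef.eq (by fun_prop) (by fun_prop)))
    · intro n
      simp

theorem exists_generic (h : CR.Countable) : ∃ X : ℕ → ℕ, (∀ i, X i < 2) ∧ Generic X := by
  have hc : {D : Set (List ℕ) | MDef (· ∈ D) ∧ ∀ s, Bin s → ∃ r ∈ D, Bin r ∧ Pre s r}.Countable :=
    (countable_sets h).mono fun D hD => hD.1
  obtain ⟨D, hD⟩ := hc.exists_eq_range ⟨Set.univ, (MDef.const True).congr (by simp),
    fun s hs => ⟨s, trivial, hs, Pre.refl s⟩⟩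
  have hdense : ∀ k s, Bin s → ∃ r ∈ D k, Bin r ∧ Pre s r := by
    intro k
    have : D k ∈ Set.range D := ⟨k, rfl⟩
    rw [← hD] at this
    exact this.2
  have hstep : ∀ (k : ℕ) (s : {s // Bin s}), ∃ r : {s // Bin s}, r.1 ∈ D k ∧ Pre s.1 r.1 := by
    rintro k ⟨s, hs⟩
    obtain ⟨r, h1, h2, h3⟩ := hdense k s hs
    exact ⟨⟨r, h2⟩, h1, h3⟩
  choose nxt hn1 hn2 using hstep
  have hb0 : Bin [0] := by
    intro i x hx
    rcases i with _ | i <;> simp at hx
    omega
  obtain ⟨T, hTs⟩ : ∃ T : ℕ → {s // Bin s}, ∀ k, (T (k + 1)).1 = (nxt k (T k)).1 ++ [0] :=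
    ⟨fun k => Nat.rec ⟨[], by intro i x hx; simp at hx⟩
      (fun k s => ⟨(nxt k s).1 ++ [0], bin_append (nxt k s).2 hb0⟩) k, fun k => rfl⟩
  have hlen : ∀ k, k ≤ (T k).1.length := by
    intro k
    induction k with
    | zero => omega
    | succ k ih =>
      have := (hn2 k (T k)).length_le
      rw [hTs]; simp; omega
  obtain ⟨X, hX⟩ := exists_limit (fun k => (T k).1)
    (fun k => by rw [hTs]; exact (hn2 k (T k)).trans (pre_append _ _)) hlen
  refine ⟨X, ?_, ?_⟩
  · intro i
    have h1 := hlen (i + 1)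
    have h2 : (T (i + 1)).1[i]? = some (X i) := by
      rw [hX (i + 1), getElem?_res_eq_some]
      exact ⟨by omega, rfl⟩
    exact (T (i + 1)).2 _ _ h2
  · intro D' hD' hdense'
    have : D' ∈ Set.range D := by rw [← hD]; exact ⟨hD', hdense'⟩
    obtain ⟨k, rfl⟩ := this
    refine ⟨(nxt k (T k)).1.length, ?_⟩
    have h1 : (nxt k (T k)).1 = res X (nxt k (T k)).1.length := by
      have h2 := hX (k + 1)
      simp only [hTs] at h2
      refine List.ext_getElem? fun m => ?_
      rw [getElem?_res]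
      split_ifs with h
      · have h3 : ((nxt k (T k)).1 ++ [0])[m]? = (nxt k (T k)).1[m]? :=
          List.getElem?_append_left h
        rw [← h3, h2, getElem?_res, if_pos (by simp; omega)]
      · exact List.getElem?_eq_none (by omega)
    rw [← h1]
    exact hn1 k (T k)

theorem main {A : ℕ → Set ℝ} (hA : ∀ n, IsSigma12Real (A n)) (hcov : ⋃ n, A n = Set.univ)
    (hind : ∀ n, LinearIndepOn ℚ id (A n)) (X : ℕ → ℕ) (hX : ∀ i, X i < 2) : MFun X := by
  have hin : ∀ x : ℝ, ∃ n, x ∈ A n := by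
    intro x
    have : x ∈ ⋃ n, A n := by rw [hcov]; trivial
    simpa using this
  by_cases hC : CR.Countable
  · -- Cohen reals
    exfalso
    obtain ⟨G, hG2, hG⟩ := exists_generic hC
    obtain ⟨n, hn⟩ := hin (yv G)
    obtain ⟨K, hK, hKA⟩ := exists_K (hA n)
    obtain ⟨w, hw⟩ := (hKA G fun i => (hG2 i).le).1 hn
    have hE : MFun (fun x : ℕ => (Nat.unpair x).1) := by fun_prop
    obtain ⟨k, hk⟩ := exists_pairs_of_generic hK hE hw (by simpa using hG)
    have hmem : ∀ Z : ℕ → ℕ, (∀ i, Z i < 2) → (∃ a, Bk K a ∧ ∀ i, (Nat.unpair (a i)).1 = Z i) →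
        yv Z ∈ A n := by
      rintro Z hZ ⟨a, ha, haZ⟩
      rw [hKA Z fun i => (hZ i).le]
      refine ⟨fun i => (Nat.unpair (a i)).2, ?_⟩
      have : (fun i => Nat.pair (Z i) (Nat.unpair (a i)).2) = a := by
        ext i
        rw [← haZ i, Nat.pair_unpair]
      rwa [this]
    obtain ⟨Z0, Z1, h1, h2, h3, h4, h5, h6, h7, h8⟩ := hk 0 (by omega)
    obtain ⟨Y0, Y1, g1, g2, g3, g4, g5, g6, g7, g8⟩ := hk 1 (by omega)
    let e : ℕ → ℕ := fun i => if i = k then 1 else 0
    have he : ∀ i, e i < 2 := by intro i; simp only [e]; split_ifs <;> omega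
    have hZ1 : yv Z1 = yv e + yv Z0 := by
      rw [← yv_add (fun i => (he i).le) (fun i => (h1 i).le)]
      congr 1
      ext i
      simp only [e]
      split_ifs with hi
      · subst hi; omega
      · rw [h5 i hi]; omega
    have hY1 : yv Y1 = yv e + yv Y0 := by
      rw [← yv_add (fun i => (he i).le) (fun i => (g1 i).le)]
      congr 1
      ext i
      simp only [e]
      split_ifs with hi
      · subst hi; omega
      · rw [g5 i hi]; omega
    have he0 : (0 : ℝ) ≠ yv e := by
      intro h0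
      have : yv (fun _ => 0) = yv e := by rw [← h0]; simp [yv]
      have := congrFun (yv_injective (fun _ => by omega) he this) k
      simp [e] at this
    have := indep_aux (hind n) he0 (x := yv Z0) (x' := yv Y0)
      (by rw [zero_add]; exact hmem _ h1 h7) (by rw [← hZ1]; exact hmem _ h2 h8)
      (by rw [zero_add]; exact hmem _ g1 g7) (by rw [← hY1]; exact hmem _ g2 g8)
    have := yv_injective h1 g1 this
    rw [this, g6] at h6
    omega
  · -- the pigeonhole case
    choose c hc using fun P : ℕ → ℕ => hin (yv (fun i => P i + X i))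
    have hnot : ¬ Set.InjOn c CR := fun hinj =>
      hC (Set.countable_of_injective_of_countable_image hinj (Set.to_countable _))
    unfold Set.InjOn at hnot
    push Not at hnot
    obtain ⟨P, ⟨hPM, hP⟩, P', ⟨hPM', hP'⟩, hcc, hne⟩ := hnot
    obtain ⟨K, hK, hKA⟩ := exists_K (hA (c P))
    have hcP := hc P
    have hcP' := hc P'
    rw [← hcc] at hcP'
    have hle : ∀ {S T : ℕ → ℕ}, (∀ i, S i < 2) → (∀ i, T i < 2) → ∀ i, S i + T i ≤ 2 := by
      intro S T hS hT i; have := hS i; have := hT i; omega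
    let ex : ℕ → ℕ := fun x => (Nat.unpair x).1 % 2
    have hmod : MFun (fun n : ℕ => n % 2) :=
      mFun_of_computable (Primrec.nat_mod.comp Primrec.id (Primrec.const 2)).to_comp
    have hex : MFun ex := by
      change MFun (fun x => (fun n : ℕ => n % 2) ((Nat.unpair x).1))
      fun_prop
    have hex2 : ∀ x, ex x < 2 := fun x => Nat.mod_lt _ (by omega)
    let g : ℕ × ℕ → ℕ := fun q => Nat.pair (P q.1 + ex q.2) (Nat.unpair (Nat.unpair q.2).2).1
    let g' : ℕ × ℕ → ℕ := fun q => Nat.pair (P' q.1 + ex q.2) (Nat.unpair (Nat.unpair q.2).2).2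
    have hg : MFun g := by
      change MFun (fun q : ℕ × ℕ =>
        Nat.pair (P q.1 + ex q.2) (Nat.unpair (Nat.unpair q.2).2).1)
      fun_prop
    have hg' : MFun g' := by
      change MFun (fun q : ℕ × ℕ =>
        Nat.pair (P' q.1 + ex q.2) (Nat.unpair (Nat.unpair q.2).2).2)
      fun_prop
    refine mFun_of_unique (K := KSum (KComap g K) (KComap g' K))
      (kDef_sum (kDef_comap hg hK) (kDef_comap hg' hK)) hex ?_ ?_
    · obtain ⟨w, hw⟩ := (hKA _ (hle hP hX)).1 hcP
      obtain ⟨w', hw'⟩ := (hKA _ (hle hP' hX)).1 hcP'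
      refine ⟨fun i => Nat.pair (X i) (Nat.pair (w i) (w' i)), ?_⟩
      have hXm : ∀ i, X i % 2 = X i := fun i => Nat.mod_eq_of_lt (hX i)
      rw [bk_sum, bk_comap, bk_comap]
      simpa [g, g', ex, hXm] using ⟨hw, hw'⟩
    · intro a ha
      rw [bk_sum, bk_comap, bk_comap] at ha
      have h1 : yv (fun i => P i + ex (a i)) ∈ A (c P) :=
        (hKA _ (hle hP fun i => hex2 (a i))).2 ⟨_, ha.1⟩
      have h2 : yv (fun i => P' i + ex (a i)) ∈ A (c P) :=
        (hKA _ (hle hP' fun i => hex2 (a i))).2 ⟨_, ha.2⟩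
      have hXle : ∀ i, X i ≤ 2 := fun i => (hX i).le
      have hale : ∀ i, ex (a i) ≤ 2 := fun i => (hex2 _).le
      rw [yv_add (fun i => (hP i).le) hXle] at hcP
      rw [yv_add (fun i => (hP' i).le) hXle] at hcP'
      rw [yv_add (fun i => (hP i).le) hale] at h1
      rw [yv_add (fun i => (hP' i).le) hale] at h2
      have h3 : yv (fun i => ex (a i)) = yv X :=
        indep_aux (hind (c P)) (fun h => hne (yv_injective hP hP' h)) h1 h2 hcP hcP'
      have h4 := yv_injective (fun i => hex2 (a i)) hX h3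
      exact fun i => congrFun h4 i

theorem inL_natSet_of_mDef {X : Set ℕ} (h : MDef (· ∈ X)) : InL (natSet X) := by
  obtain ⟨s, hs, h⟩ := h
  convert hs
  ext x
  rw [h, natSet, ZFSet.mem_range]
  constructor
  · rintro ⟨⟨n, hn⟩, rfl⟩
    exact ⟨n, hn, rfl⟩
  · rintro ⟨n, hn, rfl⟩
    exact ⟨⟨n, hn⟩, rfl⟩

theorem inL_graphSet_of_mFun {f : ℕ → ℕ} (h : MFun f) : InL (graphSet f) := by
  obtain ⟨s, hs, h⟩ := h
  convert hs
  ext x
  rw [h, graphSet, ZFSet.mem_range]
  constructor
  · rintro ⟨n, rfl⟩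
    exact ⟨(n, f n), rfl, rfl⟩
  · rintro ⟨⟨n, m⟩, hn, rfl⟩
    refine ⟨n, ?_⟩
    have hn' : f n = m := hn
    rw [hn']
    rfl

theorem mDef_subset {A : ℕ → Set ℝ} (hA : ∀ n, IsSigma12Real (A n)) (hcov : ⋃ n, A n = Set.univ)
    (hind : ∀ n, LinearIndepOn ℚ id (A n)) (X : Set ℕ) : MDef (· ∈ X) := by
  have h := main hA hcov hind (chi X) (chi_lt X)
  refine (MDef.eq (f := fun n => chi X n) (g := fun _ => 1) h (by fun_prop)).congr fun n => ?_
  exact chi_eq_one

theorem reals_constructible {A : ℕ → Set ℝ} (hA : ∀ n, IsSigma12Real (A n))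
    (hcov : ⋃ n, A n = Set.univ) (hind : ∀ n, LinearIndepOn ℚ id (A n)) :
    (∀ f : ℕ → ℕ, InL (graphSet f)) ∧ ∀ x : ℝ, InL (cutSet x) := by
  refine ⟨fun f => inL_graphSet_of_mFun ?_,
    fun x => inL_natSet_of_mDef (mDef_subset hA hcov hind _)⟩
  have h := mDef_subset hA hcov hind (Set.range fun n => Nat.pair n (f n))
  unfold MFun
  refine (MDef.comp h (f := fun p : ℕ × ℕ => Nat.pair p.1 p.2) (by fun_prop)).congr ?_
  rintro ⟨n, m⟩
  constructor
  · rintro ⟨k, hk⟩
    rw [Nat.pair_eq_pair] at hk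
    rw [← hk.1, ← hk.2]
  · intro hm
    exact ⟨n, by rw [← hm]⟩

/-! ### The definitions behave as expected -/

theorem exists_names (x : ℝ) : ∃ f, Names f x := by
  have key : ∀ i : ℕ, ∃ k : ℕ, |x - dya k i| ≤ 1 / 2 ^ i := by
    intro i
    have h2 : (0 : ℝ) < 2 ^ i := by positivity
    set z : ℤ := ⌊x * 2 ^ i⌋ with hz
    refine ⟨Nat.pair z.toNat (-z).toNat, ?_⟩
    unfold dya
    rw [Nat.unpair_pair]
    have h1 : ((z.toNat : ℝ) - ((-z).toNat : ℝ)) = (z : ℝ) := by
      have : ((z.toNat : ℤ) - ((-z).toNat : ℤ)) = z := by omega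
      exact_mod_cast congrArg (fun t : ℤ => (t : ℝ)) this
    simp only [h1]
    have h3 := Int.floor_le (x * 2 ^ i)
    have h4 := Int.lt_floor_add_one (x * 2 ^ i)
    rw [← hz] at h3 h4
    have h5 : x - (z : ℝ) / 2 ^ i = (x * 2 ^ i - z) / 2 ^ i := by field_simp
    rw [h5, abs_div, abs_of_pos h2]
    gcongr
    rw [abs_le]
    constructor <;> linarith
  choose f hf using key
  exact ⟨f, hf⟩

theorem names_unique {f : ℕ → ℕ} {x y : ℝ} (hx : Names f x) (hy : Names f y) : x = y := by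
  by_contra hne
  have hpos : 0 < |x - y| := abs_pos.2 (sub_ne_zero.2 hne)
  obtain ⟨i, hi⟩ := exists_pow_lt_of_lt_one (half_pos hpos) (show (1 / 2 : ℝ) < 1 by norm_num)
  have h1 := hx i
  have h2 := hy i
  have h3 : |x - y| ≤ |x - dya (f i) i| + |y - dya (f i) i| := by
    have := abs_sub (x - dya (f i) i) (y - dya (f i) i)
    simpa using this
  rw [one_div_pow] at hi
  linarith

/-- A set of reals whose set of names is `Σ¹₂` is a `Σ¹₂` set in the sense used here. -/
theorem IsSigma12Real.of_names {A : Set ℝ} (h : IsSigma12 {f | ∃ x ∈ A, Names f x}) :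
    IsSigma12Real A := by
  refine ⟨_, h, fun x => ⟨fun hx => ?_, ?_⟩⟩
  · obtain ⟨f, hf⟩ := exists_names x
    exact ⟨f, hf, x, hx, hf⟩
  · rintro ⟨f, hf, y, hy, hfy⟩
    rwa [names_unique hf hfy]

theorem ratEnum_surjective : Function.Surjective ratEnum := by
  intro q
  refine ⟨Nat.pair q.num.toNat (Nat.pair (-q.num).toNat (q.den - 1)), ?_⟩
  unfold ratEnum
  simp only [Nat.unpair_pair]
  have h1 : ((q.num.toNat : ℚ) - ((-q.num).toNat : ℚ)) = (q.num : ℚ) := by
    have : ((q.num.toNat : ℤ) - ((-q.num).toNat : ℤ)) = q.num := by omega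
    exact_mod_cast congrArg (fun t : ℤ => (t : ℚ)) this
  have h2 : (((q.den - 1 : ℕ) : ℚ) + 1) = (q.den : ℚ) := by
    have := q.den_pos
    have h3 : q.den - 1 + 1 = q.den := by omega
    exact_mod_cast congrArg (fun t : ℕ => (t : ℚ)) h3
  rw [h1, h2]
  exact Rat.num_div_den q

end Pool.Agent.H75.EK
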