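import Pool.Agent.H75.EK.Main

/-!
Mansfield's theorem: a set of reals that is a projection of a constructible well-foundedness
condition and has a nonconstructible member has a perfect subset.
-/

open Set Filter Topology

namespace Pool.Agent.H75.EK

/-- A splitting family of nodes gives a perfect set. -/
theorem perfect_of_split {τ : Type*} {E : τ → ℕ} {S : Set (List τ)}
    (hsplit : ∀ t ∈ S, ∃ t' ∈ S, ∃ t'' ∈ S, Pre t t' ∧ Pre t t'' ∧ ∃ (i : ℕ) (p q : τ),
      t'[i]? = some p ∧ t''[i]? = some q ∧ E p ≠ E q) {t0 : List τ} (ht0 : t0 ∈ S) :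
    ∃ b : (ℕ → Bool) → ℕ → τ, (∀ z N, ∃ n, N ≤ n ∧ res (b z) n ∈ S) ∧
      Continuous (fun z i => E (b z i)) ∧ Function.Injective (fun z i => E (b z i)) := by
  have h1 : ∀ s : S, ∃ f : Bool → S, (∀ b, Pre s.1 (f b).1) ∧ ∃ (i : ℕ) (p q : τ),
      (f false).1[i]? = some p ∧ (f true).1[i]? = some q ∧ E p ≠ E q := by
    rintro ⟨t, ht⟩
    obtain ⟨t', h1, t'', h2, h3, h4, i, p, q, h5, h6, h7⟩ := hsplit t ht
    refine ⟨fun b => if b then ⟨t'', h2⟩ else ⟨t', h1⟩, ?_, i, p, q, ?_, ?_, h7⟩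
    · intro b; cases b <;> simpa
    · simpa using h5
    · simpa using h6
  choose f hf hd using h1
  let T : (ℕ → Bool) → ℕ → S := fun z n => Nat.rec ⟨t0, ht0⟩ (fun n s => f s (z n)) n
  have hT0 : ∀ z, T z 0 = ⟨t0, ht0⟩ := fun z => rfl
  have hTs : ∀ z n, T z (n + 1) = f (T z n) (z n) := fun z n => rfl
  have hgrow : ∀ (s : S) (b : Bool), s.1.length + 1 ≤ (f s b).1.length := by
    intro s b
    obtain ⟨i, p, q, h1, h2, h3⟩ := hd s
    have hi : s.1.length ≤ i := by
      by_contra hlt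
      push Not at hlt
      have h4 := hf s false i _ (List.getElem?_eq_getElem hlt)
      have h5 := hf s true i _ (List.getElem?_eq_getElem hlt)
      rw [h1] at h4
      rw [h2] at h5
      cases h4
      cases h5
      exact h3 rfl
    have h4 : i < (f s false).1.length := (List.getElem?_eq_some_iff.1 h1).1
    have h5 : i < (f s true).1.length := (List.getElem?_eq_some_iff.1 h2).1
    cases b <;> omega
  have hlen : ∀ z n, n ≤ (T z n).1.length := by
    intro z n
    induction n with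
    | zero => omega
    | succ n ih =>
      have := hgrow (T z n) (z n)
      rw [hTs]
      omega
  have hex : ∀ z, ∃ b : ℕ → τ, ∀ n, (T z n).1 = res b (T z n).1.length := fun z =>
    exists_limit (fun n => (T z n).1) (fun n => by rw [hTs]; exact hf _ _) (hlen z)
  choose b hb using hex
  have hget : ∀ z n (i : ℕ) (p : τ), (T z n).1[i]? = some p → b z i = p := by
    intro z n i p hp
    rw [hb z n, getElem?_res_eq_some] at hp
    exact hp.2
  have hcongr : ∀ z z' n, (∀ i < n, z' i = z i) → T z' n = T z n := by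
    intro z z' n
    induction n with
    | zero => intro _; rw [hT0, hT0]
    | succ n ih =>
      intro h
      rw [hTs, hTs, ih fun i hi => h i (by omega), h n (by omega)]
  refine ⟨b, ?_, ?_, ?_⟩
  · intro z N
    exact ⟨(T z N).1.length, hlen z N, by rw [← hb z N]; exact (T z N).2⟩
  · rw [continuous_pi_iff]
    intro i
    rw [continuous_iff_continuousAt]
    intro z
    have h1 : ∀ᶠ z' in 𝓝 z, ∀ j ∈ Finset.range (i + 1), z' j = z j := by
      rw [Filter.eventually_all_finset]
      intro j _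
      have : Tendsto (fun z' : ℕ → Bool => z' j) (𝓝 z) (𝓝 (z j)) := (continuous_apply j).tendsto z
      exact this.eventually (p := fun c => c = z j) (by rw [nhds_discrete]; exact rfl)
    refine tendsto_const_nhds.congr' ?_
    filter_upwards [h1] with z' hz'
    have h2 := hcongr z z' (i + 1) fun j hj => hz' j (Finset.mem_range.2 hj)
    have h3 : i < (T z (i + 1)).1.length := by have := hlen z (i + 1); omega
    have h4 := List.getElem?_eq_getElem h3
    rw [hget z (i + 1) i _ h4, hget z' (i + 1) i _ (by rw [h2]; exact h4)]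
  · intro z z' hzz
    by_contra hne
    have hex : ∃ n, z' n ≠ z n := by
      by_contra hno
      push Not at hno
      exact hne (funext fun n => (hno n).symm)
    classical
    obtain ⟨n, hn, hmin⟩ : ∃ n, z' n ≠ z n ∧ ∀ i < n, z' i = z i :=
      ⟨Nat.find hex, Nat.find_spec hex, fun i hi => by
        have := Nat.find_min hex hi
        push Not at this
        exact this⟩
    have h1 := hcongr z z' n hmin
    obtain ⟨i, p, q, h2, h3, h4⟩ := hd (T z n)
    have h5 : E (b z i) = E (b z' i) := congrFun hzz i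
    have key : ∀ c : Bool, ∀ w, w n = c → T w n = T z n → b w i = if c then q else p := by
      intro c w hw hwT
      have := hTs w n
      rw [hwT, hw] at this
      cases c
      · exact hget w (n + 1) i _ (by rw [this]; exact h2)
      · exact hget w (n + 1) i _ (by rw [this]; exact h3)
    rw [key (z n) z rfl rfl, key (z' n) z' rfl h1] at h5
    rcases Bool.eq_false_or_eq_true (z n) with h6 | h6 <;>
    rcases Bool.eq_false_or_eq_true (z' n) with h7 | h7 <;>
    simp [h6, h7] at h5 hn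
    · exact h4 h5.symm
    · exact h4 h5

/-- **Mansfield's theorem**, for projections of constructible well-foundedness conditions: if the
set of the `E`-parts of the `a` with `Bk K a` has a nonconstructible member, then it has a
perfect subset. -/
theorem exists_perfect {K : List ℕ → ℕ → ℕ → Prop} (hK : KDef K) {E : ℕ → ℕ} (hE : MFun E)
    {a : ℕ → ℕ} (ha : Bk K a) (hx : ¬ MFun (fun i => E (a i))) :
    ∃ F : (ℕ → Bool) → ℕ → ℕ, Continuous F ∧ Function.Injective F ∧
      ∀ z, ∃ a, Bk K a ∧ ∀ i, E (a i) = F z i := by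
  obtain ⟨κ, hκ⟩ := exists_kappa K
  let G : Set (List (ℕ × Set.Iio κ)) → Set (List (ℕ × Set.Iio κ)) := fun S =>
    {t | Valid K κ t ∧ ∃ t', ∃ t'', ∃ i : ℕ, ∃ p : ℕ × Set.Iio κ, ∃ q : ℕ × Set.Iio κ,
      t' ∈ S ∧ t'' ∈ S ∧ Pre t t' ∧ Pre t t'' ∧ t'[i]? = some p ∧ t''[i]? = some q ∧
        ¬ E p.1 = E q.1}
  have hmono : Monotone G := by
    rintro S S' h t ⟨h1, t', t'', i, p, q, h2, h3, h4⟩
    exact ⟨h1, t', t'', i, p, q, h h2, h h3, h4⟩
  have hG : UDef G := by
    intro Γ _ Q hQ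
    refine MDef.and ((mDef_valid hK κ).comp (by fun_prop)) (MDef.ex (MDef.ex (MDef.ex (MDef.ex
      (MDef.ex (MDef.and ?_ (MDef.and ?_ (MDef.and (mDef_pre ?_ ?_) (MDef.and (mDef_pre ?_ ?_)
      (MDef.and (MDef.getElem? ?_ ?_ ?_) (MDef.and (MDef.getElem? ?_ ?_ ?_)
      (MDef.not (MDef.eq ?_ ?_)))))))))))))
    · exact hQ.comp (f := fun q : (((((Γ × List (ℕ × Set.Iio κ)) × List (ℕ × Set.Iio κ)) ×
        List (ℕ × Set.Iio κ)) × ℕ) × (ℕ × Set.Iio κ)) × (ℕ × Set.Iio κ) =>
        (q.1.1.1.1.1.1, q.1.1.1.1.2)) (by fun_prop)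
    · exact hQ.comp (f := fun q : (((((Γ × List (ℕ × Set.Iio κ)) × List (ℕ × Set.Iio κ)) ×
        List (ℕ × Set.Iio κ)) × ℕ) × (ℕ × Set.Iio κ)) × (ℕ × Set.Iio κ) =>
        (q.1.1.1.1.1.1, q.1.1.1.2)) (by fun_prop)
    all_goals fun_prop
  obtain ⟨S, hS, hfix, hB⟩ := exists_fix hmono hG
  obtain ⟨h, hh⟩ := hκ a ha
  have hbr : Set.range (res (fun i => (a i, h i))) ⊆ S := by
    apply hB
    rintro S' hS' hsub _ ⟨n, rfl⟩
    refine ⟨valid_res hh n, ?_⟩
    by_contra hno
    apply hx
    push Not at hno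
    unfold MFun
    refine MDef.congr (P := fun p : ℕ × ℕ => ∃ t : List (ℕ × Set.Iio κ), ∃ q : ℕ × Set.Iio κ,
      t ∈ S' ∧ Pre (res (fun i => (a i, h i)) n) t ∧ t[p.1]? = some q ∧ E q.1 = p.2) ?_ ?_
    · refine MDef.ex (MDef.ex (MDef.and (hS'.comp ?_) (MDef.and (mDef_pre ?_ ?_) (MDef.and
        (MDef.getElem? ?_ ?_ ?_) (MDef.eq ?_ ?_))))) <;> fun_prop
    · rintro ⟨i, c⟩
      dsimp only
      have hbi : (res (fun i => (a i, h i)) (max n (i + 1)))[i]? = some (a i, h i) := by
        rw [getElem?_res_eq_some]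
        exact ⟨by omega, rfl⟩
      constructor
      · rintro ⟨t, q, h1, h2, h3, h4⟩
        rw [← h4]
        exact hno (res (fun i => (a i, h i)) (max n (i + 1))) t i (a i, h i) q (hsub ⟨_, rfl⟩) h1
          (pre_res _ (le_max_left _ _)) h2 hbi h3
      · intro h1
        exact ⟨res (fun i => (a i, h i)) (max n (i + 1)), (a i, h i), hsub ⟨_, rfl⟩,
          pre_res _ (le_max_left _ _), hbi, h1⟩
  obtain ⟨b, hb1, hb2, hb3⟩ := perfect_of_split (E := fun p : ℕ × Set.Iio κ => E p.1) (S := S)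
    (by
      intro t ht
      obtain ⟨_, t', t'', i, p, q, h2, h3, h4, h5, h6, h7, h8⟩ := hfix ht
      exact ⟨t', h2, t'', h3, h4, h5, i, p, q, h6, h7, h8⟩)
    (t0 := res (fun i => (a i, h i)) 0) (hbr ⟨0, rfl⟩)
  refine ⟨_, hb2, hb3, fun z => ⟨fun i => (b z i).1, ?_, fun i => rfl⟩⟩
  apply bk_of_valid (κ := κ)
  intro N
  obtain ⟨n, hn, hn'⟩ := hb1 z N
  exact ⟨n, hn, (hfix hn').1⟩

/-- A thin set of reals that is a projection of a constructible well-foundedness condition
consists of constructible reals. -/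
theorem thin_mFun {K : List ℕ → ℕ → ℕ → Prop} (hK : KDef K) {E : ℕ → ℕ} (hE : MFun E)
    {A : Set (ℕ → Bool)} (hA : ∀ x, x ∈ A ↔ ∃ a, Bk K a ∧ ∀ i, E (a i) = (x i).toNat)
    (hthin : ∀ C ⊆ A, IsClosed C → C.Countable) {x : ℕ → Bool} (hx : x ∈ A) :
    MFun (fun i => (x i).toNat) := by
  obtain ⟨a, ha, hax⟩ := (hA x).1 hx
  by_contra hno
  have hax' : (fun i => E (a i)) = fun i => (x i).toNat := funext hax
  let C : List ℕ → Prop := fun l => ∀ i x : ℕ, l[i]? = some x → E x < 2
  have hC : MDef C := by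
    refine MDef.all (MDef.all (MDef.imp (MDef.getElem? ?_ ?_ ?_) (MDef.lt ?_ ?_))) <;> fun_prop
  have hCa : ∀ a : ℕ → ℕ, (∀ n, C (res a n)) ↔ ∀ i, E (a i) < 2 := by
    intro a
    constructor
    · intro h i
      exact h (i + 1) i _ (by rw [getElem?_res_eq_some]; exact ⟨by omega, rfl⟩)
    · intro h n i x hx
      rw [getElem?_res_eq_some] at hx
      rw [← hx.2]
      exact h i
  obtain ⟨F, hFc, hFi, hF⟩ := exists_perfect (K := KSum K (fun l i j => i = j ∧ ¬ C l))
    (kDef_sum hK (kDef_closed hC)) hE (a := a)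
    (by
      rw [bk_sum, bk_closed, hCa]
      refine ⟨ha, fun i => ?_⟩
      rw [hax]
      exact Bool.toNat_lt _)
    (by rw [hax']; exact hno)
  let Y : (ℕ → Bool) → ℕ → Bool := fun z i => decide (F z i = 1)
  have hYF : ∀ z i, (Y z i).toNat = F z i := by
    intro z i
    obtain ⟨a, h1, h2⟩ := hF z
    rw [bk_sum, bk_closed, hCa] at h1
    have h3 := h1.2 i
    rw [h2] at h3
    have h4 : F z i = 0 ∨ F z i = 1 := by omega
    rcases h4 with h4 | h4 <;> simp [Y, h4]
  have hYc : Continuous Y := by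
    rw [continuous_pi_iff]
    intro i
    have : Continuous (fun n : ℕ => decide (n = 1)) := continuous_of_discreteTopology
    exact this.comp ((continuous_apply i).comp hFc)
  have hYi : Function.Injective Y := by
    intro z z' h
    apply hFi
    funext i
    rw [← hYF, ← hYF, h]
  have hsub : Set.range Y ⊆ A := by
    rintro _ ⟨z, rfl⟩
    rw [hA]
    obtain ⟨a, h1, h2⟩ := hF z
    rw [bk_sum] at h1
    exact ⟨a, h1.1, fun i => by rw [h2, hYF]⟩
  have hcl : IsClosed (Set.range Y) := (isCompact_range hYc).isClosed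
  have hcount := hthin _ hsub hcl
  have h1 : (Set.univ : Set (ℕ → Bool)).Countable :=
    Set.countable_of_injective_of_countable_image hYi.injOn (by rwa [Set.image_univ])
  have h2 : Countable (ℕ → Bool) := Set.countable_univ_iff.1 h1
  have h3 := Cardinal.mk_le_aleph0_iff.2 h2
  rw [← Cardinal.power_def, Cardinal.mk_bool, Cardinal.mk_nat] at h3
  exact absurd (Cardinal.cantor Cardinal.aleph0) (not_lt.2 h3)

/-- Thin projections consist of constructible reals, as sets. -/
theorem thin_inL {K : List ℕ → ℕ → ℕ → Prop} (hK : KDef K) {E : ℕ → ℕ} (hE : MFun E)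
    {A : Set (ℕ → Bool)} (hA : ∀ x, x ∈ A ↔ ∃ a, Bk K a ∧ ∀ i, E (a i) = (x i).toNat)
    (hthin : ∀ C ⊆ A, IsClosed C → C.Countable) {x : ℕ → Bool} (hx : x ∈ A) :
    InL (natSet {n | x n = true}) := by
  apply inL_natSet_of_mDef
  refine (MDef.eq (f := fun n => (x n).toNat) (g := fun _ => 1) (thin_mFun hK hE hA hthin hx)
    (by fun_prop)).congr fun n => ?_
  simp

/-- A set of naturals is constructible in the sense of the calculus iff it is constructible. -/
theorem mDef_iff_inL {X : Set ℕ} : MDef (· ∈ X) ↔ InL (natSet X) := by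
  refine ⟨inL_natSet_of_mDef, fun h => ⟨natSet X, h, fun x => ?_⟩⟩
  rw [natSet, ZFSet.mem_range]
  constructor
  · rintro ⟨⟨n, hn⟩, rfl⟩
    exact ⟨n, hn, rfl⟩
  · rintro ⟨n, hn, rfl⟩
    exact ⟨⟨n, hn⟩, rfl⟩

end Pool.Agent.H75.EK
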