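import Pool.Agent.H75.EK.Tree

/-!
Closure properties of the sets `{a | Bk K a}`, and the normal form of `Π¹₁` sets.
-/

open Set

namespace Pool.Agent.H75.EK

universe u v w

/-! ### Closed conditions -/

theorem bk_closed {C : List ℕ → Prop} {a : ℕ → ℕ} :
    Bk (fun l i j => i = j ∧ ¬ C l) a ↔ ∀ n, C (res a n) := by
  constructor
  · rintro ⟨h, hh⟩ n
    by_contra hn
    exact lt_irrefl _ (hh n 0 0 ⟨rfl, hn⟩)
  · intro h
    exact ⟨fun _ => 0, fun n i j hK => absurd (h n) hK.2⟩

theorem kDef_closed {C : List ℕ → Prop} (hC : MDef C) : KDef (fun l i j => i = j ∧ ¬ C l) := by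
  unfold KDef
  exact (MDef.eq (by fun_prop) (by fun_prop)).and (MDef.not (hC.comp (by fun_prop)))

/-! ### Intersections -/

/-- The direct sum of two relations. -/
def KSum (K1 K2 : List ℕ → ℕ → ℕ → Prop) (l : List ℕ) (i j : ℕ) : Prop :=
  (∃ i' j' : ℕ, i = 2 * i' ∧ j = 2 * j' ∧ K1 l i' j') ∨
    (∃ i' j' : ℕ, i = 2 * i' + 1 ∧ j = 2 * j' + 1 ∧ K2 l i' j')

theorem bk_sum {K1 K2 : List ℕ → ℕ → ℕ → Prop} {a : ℕ → ℕ} :
    Bk (KSum K1 K2) a ↔ Bk K1 a ∧ Bk K2 a := by
  constructor
  · rintro ⟨h, hh⟩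
    exact ⟨⟨fun i => h (2 * i), fun n i j hK => hh n _ _ (Or.inl ⟨i, j, rfl, rfl, hK⟩)⟩,
      ⟨fun i => h (2 * i + 1), fun n i j hK => hh n _ _ (Or.inr ⟨i, j, rfl, rfl, hK⟩)⟩⟩
  · rintro ⟨⟨h1, hh1⟩, ⟨h2, hh2⟩⟩
    refine ⟨fun i => if i % 2 = 0 then h1 (i / 2) else h2 (i / 2), fun n i j hK => ?_⟩
    rcases hK with ⟨i', j', rfl, rfl, hK⟩ | ⟨i', j', rfl, rfl, hK⟩
    · have := hh1 n _ _ hK
      simpa using this
    · have := hh2 n _ _ hK
      have e1 : (2 * i' + 1) / 2 = i' := by omega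
      have e2 : (2 * j' + 1) / 2 = j' := by omega
      simpa [Nat.add_mod, e1, e2] using this

theorem kDef_sum {K1 K2 : List ℕ → ℕ → ℕ → Prop} (h1 : KDef K1) (h2 : KDef K2) :
    KDef (KSum K1 K2) := by
  unfold KDef KSum
  refine MDef.or (MDef.ex (MDef.ex (MDef.and (MDef.eq ?_ ?_) (MDef.and (MDef.eq ?_ ?_) ?_))))
    (MDef.ex (MDef.ex (MDef.and (MDef.eq ?_ ?_) (MDef.and (MDef.eq ?_ ?_) ?_))))
  · fun_prop
  · fun_prop
  · fun_prop
  · fun_prop
  · exact h1.comp (f := fun q : ((List ℕ × ℕ × ℕ) × ℕ) × ℕ => (q.1.1.1, q.1.2, q.2))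
      (by fun_prop)
  · fun_prop
  · fun_prop
  · fun_prop
  · fun_prop
  · exact h2.comp (f := fun q : ((List ℕ × ℕ × ℕ) × ℕ) × ℕ => (q.1.1.1, q.1.2, q.2))
      (by fun_prop)

/-! ### Coordinatewise preimages -/

/-- The preimage of a relation under a coordinatewise map. -/
def KComap (g : ℕ × ℕ → ℕ) (K : List ℕ → ℕ → ℕ → Prop) (l : List ℕ) (i j : ℕ) : Prop :=
  ∃ l' : List ℕ, l'.length = l.length ∧ (∀ m x : ℕ, l[m]? = some x → l'[m]? = some (g (m, x))) ∧
    K l' i j

theorem bk_comap {g : ℕ × ℕ → ℕ} {K : List ℕ → ℕ → ℕ → Prop} {a : ℕ → ℕ} :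
    Bk (KComap g K) a ↔ Bk K (fun i => g (i, a i)) := by
  have key : ∀ n i j, KComap g K (res a n) i j ↔ K (res (fun i => g (i, a i)) n) i j := by
    intro n i j
    constructor
    · rintro ⟨l', h1, h2, h3⟩
      have : l' = res (fun i => g (i, a i)) n := by
        refine List.ext_getElem? fun m => ?_
        rw [getElem?_res]
        split_ifs with h
        · apply h2
          rw [getElem?_res_eq_some]
          exact ⟨h, rfl⟩
        · exact List.getElem?_eq_none (by rw [h1]; simpa using h)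
      rwa [← this]
    · intro h
      refine ⟨_, by simp, ?_, h⟩
      intro m x hx
      rw [getElem?_res_eq_some] at hx ⊢
      exact ⟨hx.1, by rw [← hx.2]⟩
  unfold Bk
  simp only [key]

theorem kDef_comap {g : ℕ × ℕ → ℕ} (hg : MFun g) {K : List ℕ → ℕ → ℕ → Prop} (hK : KDef K) :
    KDef (KComap g K) := by
  unfold KDef KComap
  refine MDef.ex (MDef.and (MDef.eq ?_ ?_) (MDef.and (MDef.all (MDef.all (MDef.imp
    (MDef.getElem? ?_ ?_ ?_) (MDef.getElem? ?_ ?_ ?_)))) ?_))
  rotate_left 8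
  · exact hK.comp (f := fun q : (List ℕ × ℕ × ℕ) × List ℕ => (q.2, q.1.2.1, q.1.2.2))
      (by fun_prop)
  all_goals fun_prop

/-! ### The normal form of `Π¹₁` sets -/

/-- The tree of unsecured sequences. -/
def KR (R : List ℕ × List ℕ × List ℕ → Prop) (F U : ℕ → ℕ) (l : List ℕ) (i j : ℕ) : Prop :=
  ∃ s s' : List ℕ, Encodable.encode s = i ∧ Encodable.encode s' = j ∧
    s'.length = s.length + 1 ∧ Pre s s' ∧ s'.length ≤ l.length ∧
    ∀ lf lu lv : List ℕ, lf.length = lv.length → lu.length = lv.length → Pre lv s' →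
      (∀ m x : ℕ, lf[m]? = some x → ∃ y : ℕ, l[m]? = some y ∧ F y = x) →
      (∀ m x : ℕ, lu[m]? = some x → ∃ y : ℕ, l[m]? = some y ∧ U y = x) → ¬ R (lf, lu, lv)

theorem kDef_kR {R : List ℕ × List ℕ × List ℕ → Prop} (hR : MDef R) {F U : ℕ → ℕ} (hF : MFun F)
    (hU : MFun U) : KDef (KR R F U) := by
  have henc : MFun (Encodable.encode : List ℕ → ℕ) := MEnc.mfun
  unfold KDef KR
  refine MDef.ex (MDef.ex (MDef.and (MDef.eq ?_ ?_) (MDef.and (MDef.eq ?_ ?_) (MDef.and
    (MDef.eq ?_ ?_) (MDef.and (mDef_pre ?_ ?_) (MDef.and (MDef.le ?_ ?_) (MDef.all (MDef.all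
    (MDef.all (MDef.imp (MDef.eq ?_ ?_) (MDef.imp (MDef.eq ?_ ?_) (MDef.imp (mDef_pre ?_ ?_)
    (MDef.imp (MDef.all (MDef.all (MDef.imp (MDef.getElem? ?_ ?_ ?_) (MDef.ex (MDef.and
    (MDef.getElem? ?_ ?_ ?_) (MDef.eq ?_ ?_))))))
    (MDef.imp (MDef.all (MDef.all (MDef.imp (MDef.getElem? ?_ ?_ ?_) (MDef.ex (MDef.and
    (MDef.getElem? ?_ ?_ ?_) (MDef.eq ?_ ?_))))))
    (MDef.not (hR.comp ?_)))))))))))))))) <;> fun_prop

theorem bk_kR {R : List ℕ × List ℕ × List ℕ → Prop} {F U : ℕ → ℕ} {a : ℕ → ℕ} :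
    Bk (KR R F U) a ↔ ∀ v : ℕ → ℕ, ∃ n, R (res (fun i => F (a i)) n, res (fun i => U (a i)) n,
      res v n) := by
  set f := fun i => F (a i) with hf
  set u := fun i => U (a i) with hu
  have eqres : ∀ (b : ℕ → ℕ) (G : ℕ → ℕ) (n : ℕ) (l : List ℕ),
      (∀ m x : ℕ, l[m]? = some x → ∃ y : ℕ, (res a n)[m]? = some y ∧ G y = x) →
      l = res (fun i => G (a i)) l.length := by
    intro b G n l hl
    refine List.ext_getElem? fun m => ?_
    rw [getElem?_res]
    split_ifs with h
    · obtain ⟨y, hy, hyx⟩ := hl m _ (List.getElem?_eq_getElem h)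
      rw [getElem?_res_eq_some] at hy
      rw [List.getElem?_eq_getElem h, ← hyx, hy.2]
    · exact List.getElem?_eq_none (by omega)
  constructor
  · rintro ⟨h, hh⟩ v
    by_contra hno
    push Not at hno
    have hdec : ∀ n, h (Encodable.encode (res v (n + 1))) < h (Encodable.encode (res v n)) := by
      intro n
      apply hh (n + 1)
      refine ⟨res v n, res v (n + 1), rfl, rfl, by simp, pre_res _ (Nat.le_succ n), by simp, ?_⟩
      intro lf lu lv h1 h2 h3 h4 h5 hR
      have e1 := eqres a F _ _ h4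
      have e2 := eqres a U _ _ h5
      have e3 : lv = res v lv.length := by
        refine List.ext_getElem? fun m => ?_
        rw [getElem?_res]
        split_ifs with h
        · have := h3 m _ (List.getElem?_eq_getElem h)
          rw [getElem?_res_eq_some] at this
          rw [List.getElem?_eq_getElem h, this.2]
        · exact List.getElem?_eq_none (by omega)
      apply hno lv.length
      rw [e1, e2, e3, h1, h2] at hR
      simpa using hR
    exact (RelEmbedding.natGT (fun n => h (Encodable.encode (res v n))) hdec).not_wellFounded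
      (wellFounded_lt)
  · intro hv
    -- the relation on finite sequences
    let Q : List ℕ → List ℕ → Prop := fun s' s =>
      s'.length = s.length + 1 ∧ Pre s s' ∧
        ∀ n ≤ s'.length, ¬ R (res f n, res u n, s'.take n)
    have hwf : WellFounded Q := by
      rw [wellFounded_iff_isEmpty_descending_chain]
      refine ⟨fun ⟨e, hstep⟩ => ?_⟩
      have hlen : ∀ k, k ≤ (e k).length := by
        intro k
        induction k with
        | zero => omega
        | succ k ih => have := (hstep k).1; omega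
      obtain ⟨v, hv'⟩ := exists_limit (fun k => e k) (fun k => (hstep k).2.1) hlen
      obtain ⟨n, hn⟩ := hv v
      refine (hstep n).2.2 n (by have := hlen (n + 1); omega) ?_
      have h1 := hv' (n + 1)
      have h2 : (e (n + 1)).take n = res v n := by
        rw [h1]
        have := hlen (n + 1)
        refine List.ext_getElem? fun m => ?_
        rw [List.getElem?_take, getElem?_res, getElem?_res]
        split_ifs <;> first | rfl | omega
      rw [h2]
      exact hn
    have : IsWellFounded (List ℕ) Q := ⟨hwf⟩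
    refine ⟨fun i => ((Encodable.decode i : Option (List ℕ))).elim 0
      (fun s => IsWellFounded.rank Q s), fun n i j hK => ?_⟩
    obtain ⟨s, s', rfl, rfl, h1, h2, h3, h4⟩ := hK
    simp only [Encodable.encodek, Option.elim_some]
    apply IsWellFounded.rank_lt_of_rel
    refine ⟨h1, h2, fun m hm hR => ?_⟩
    have hmn : m ≤ n := by simpa using hm.trans h3
    refine h4 (res f m) (res u m) (s'.take m) ?_ ?_ ?_ ?_ ?_ hR
    · simp; omega
    · simp; omega
    · intro i x hx
      rw [List.getElem?_take] at hx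
      split_ifs at hx
      exact hx
    · intro k x hx
      rw [getElem?_res_eq_some] at hx
      refine ⟨a k, ?_, hx.2⟩
      rw [getElem?_res_eq_some]
      exact ⟨by omega, rfl⟩
    · intro k x hx
      rw [getElem?_res_eq_some] at hx
      refine ⟨a k, ?_, hx.2⟩
      rw [getElem?_res_eq_some]
      exact ⟨by omega, rfl⟩

end Pool.Agent.H75.EK
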