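import Pool.Agent.H75.EK.Comp

/-!
Transfinite derivations of constructible monotone operators are constructible.
-/

open Set

namespace Pool.Agent.H75.EK

universe u v w

section stage

variable {τ : Type u} [MType τ]

/-- The `ξ`-th stage of the derivation given by the operator `G`. -/
def stage {τ : Type u} (G : Set τ → Set τ) (ξ : Ordinal.{0}) : Set τ :=
  {t | ∀ η : Set.Iio ξ, t ∈ G (stage G η)}
termination_by ξ
decreasing_by exact η.2

theorem mem_stage {τ : Type u} {G : Set τ → Set τ} {ξ : Ordinal.{0}} {t : τ} :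
    t ∈ stage G ξ ↔ ∀ η < ξ, t ∈ G (stage G η) := by
  rw [stage]
  simp

theorem mDef_ord_eq {κ κ' : Ordinal.{0}} :
    MDef (fun p : Set.Iio κ × Set.Iio κ' => p.1.1 = p.2.1) := by
  refine MDef.of_sep (D0.bex 4 2 (by decide) (D0.pair 0 4 4)) [carrier (Set.Iio κ)]
      (by simpa using inL_carrier) fun t => ?_
  simp only [val, Function.update, code_prod]
  simp
  rcases t with ⟨⟨a, ha⟩, ⟨b, hb⟩⟩
  constructor
  · rintro ⟨_, h⟩
    exact Ordinal.toZFSet_injective h
  · intro h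
    have h' : a = b := h
    subst h'
    exact ⟨code_mem_carrier (⟨a, ha⟩ : Set.Iio κ), rfl⟩

/-- The operator `G` maps constructible families of sets to constructible families. -/
def UDef (G : Set τ → Set τ) : Prop :=
  ∀ (Γ : Type (max u 1)) [MType Γ] (Q : Γ → Set τ), MDef (fun p : Γ × τ => p.2 ∈ Q p.1) →
    MDef (fun p : Γ × τ => p.2 ∈ G (Q p.1))

theorem mDef_step {G : Set τ → Set τ} (hmono : Monotone G) (hG : UDef G) (θ : Ordinal.{0}) :
    MDef (fun p : τ × Set.Iio θ => ¬ p.1 ∈ G (stage G p.2)) := by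
  induction θ using WellFoundedLT.induction with
  | _ θ ih =>
    let Q : MSet (τ × Set.Iio θ) × Set.Iio θ → Set τ :=
      fun c => {t | ¬ ∃ η : Set.Iio θ, η < c.2 ∧ (t, η) ∈ c.1.1}
    have hQ : MDef (fun p : (MSet (τ × Set.Iio θ) × Set.Iio θ) × τ => p.2 ∈ Q p.1) := by
      refine MDef.not (MDef.ex (MDef.and (MDef.olt ?_ ?_) (MDef.mem ?_ ?_))) <;> fun_prop
    have hGQ := hG _ Q hQ
    -- attempts
    let att : MSet (τ × Set.Iio θ) → Prop := fun ρ =>
      ∀ t : τ, ∀ ξ : Set.Iio θ, (t, ξ) ∈ ρ.1 → ¬ t ∈ G (Q (ρ, ξ))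
    have hatt : MDef att := by
      refine MDef.all (MDef.all (MDef.imp (MDef.mem ?_ ?_) (MDef.not ?_)))
      · fun_prop
      · fun_prop
      · exact hGQ.comp (f := fun q : (MSet (τ × Set.Iio θ) × τ) × Set.Iio θ =>
          ((q.1.1, q.2), q.1.2)) (by fun_prop)
    refine MDef.congr (P := fun p : τ × Set.Iio θ => ∃ ρ : MSet (τ × Set.Iio θ), att ρ ∧ p ∈ ρ.1)
      (MDef.ex (MDef.and (hatt.comp (by fun_prop)) (MDef.mem (by fun_prop) (by fun_prop)))) ?_
    rintro ⟨t, ξ⟩
    constructor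
    · rintro ⟨ρ, hρ, hmem⟩
      have key : ∀ ζ : Ordinal.{0}, ∀ (hζ : ζ < θ) (s : τ), (s, (⟨ζ, hζ⟩ : Set.Iio θ)) ∈ ρ.1 →
          ¬ s ∈ G (stage G ζ) := by
        intro ζ
        induction ζ using WellFoundedLT.induction with
        | _ ζ ih2 =>
          intro hζ s hs hs2
          refine hρ s ⟨ζ, hζ⟩ hs (hmono ?_ hs2)
          intro s' hs'
          rw [mem_stage] at hs'
          rintro ⟨⟨η, hη⟩, hlt, hin⟩
          exact ih2 η hlt hη s' hin (hs' η hlt)
      exact key ξ.1 ξ.2 t hmem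
    · intro ht
      have ih' := ih ξ.1 ξ.2
      let P : τ × Set.Iio θ → Prop := fun p =>
        (∃ η : Set.Iio ξ.1, η.1 = p.2.1 ∧ ¬ p.1 ∈ G (stage G η)) ∨ p = (t, ξ)
      have hP : MDef P := by
        refine MDef.or (MDef.ex (MDef.and ?_ ?_)) (MDef.eq (by fun_prop) (by fun_prop))
        · exact mDef_ord_eq.comp (f := fun q : (τ × Set.Iio θ) × Set.Iio ξ.1 => (q.2, q.1.2))
            (by fun_prop)
        · exact ih'.comp (f := fun q : (τ × Set.Iio θ) × Set.Iio ξ.1 => (q.1.1, q.2))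
            (by fun_prop)
      have hQs : ∀ ζ : Set.Iio θ, ζ ≤ ξ → Q (⟨{p | P p}, hP⟩, ζ) ⊆ stage G ζ := by
        intro ζ hζ s hs
        rw [mem_stage]
        intro η hη
        by_contra hns
        apply hs
        refine ⟨⟨η, hη.trans ζ.2⟩, hη, Or.inl ⟨⟨η, hη.trans_le hζ⟩, rfl, hns⟩⟩
      refine ⟨⟨{p | P p}, hP⟩, ?_, Or.inr rfl⟩
      rintro s ζ (⟨⟨η, hη⟩, h1, h2⟩ | h1)
      · have h1' : η = ζ.1 := h1
        subst h1'
        intro h3
        exact h2 (hmono (hQs ζ (le_of_lt hη)) h3)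
      · simp only [Prod.mk.injEq] at h1
        obtain ⟨rfl, rfl⟩ := h1
        intro h3
        exact ht (hmono (hQs ζ le_rfl) h3)

theorem mDef_stage {G : Set τ → Set τ} (hmono : Monotone G) (hG : UDef G) (ξ : Ordinal.{0}) :
    MDef (· ∈ stage G ξ) := by
  refine MDef.congr (P := fun t : τ => ∀ η : Set.Iio ξ, ¬ ¬ t ∈ G (stage G η)) ?_ ?_
  · exact MDef.all (MDef.not (mDef_step hmono hG ξ))
  · intro t
    rw [mem_stage]
    simp

instance : Small.{0} τ :=
  small_of_injective (β := carrier τ) (f := fun t => (⟨code t, code_mem_carrier t⟩ : carrier τ))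
    (fun _ _ h => code_inj.1 (congrArg Subtype.val h))

theorem exists_fix {G : Set τ → Set τ} (hmono : Monotone G) (hG : UDef G) :
    ∃ S : Set τ, MDef (· ∈ S) ∧ S ⊆ G S ∧
      ∀ B : Set τ, (∀ S' : Set τ, MDef (· ∈ S') → B ⊆ S' → B ⊆ G S') → B ⊆ S := by
  have hanti : ∀ η ξ : Ordinal.{0}, η ≤ ξ → stage G ξ ⊆ stage G η := by
    intro η ξ h t ht
    rw [mem_stage] at ht ⊢
    exact fun ζ hζ => ht ζ (hζ.trans_le h)
  have hex : ∃ ξ : Ordinal.{0}, stage G ξ ⊆ G (stage G ξ) := by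
    by_contra hno
    push Not at hno
    simp only [Set.not_subset] at hno
    choose f hf hf' using hno
    have hinj : Function.Injective f := by
      have : ∀ ξ η : Ordinal.{0}, ξ < η → f ξ ≠ f η := by
        intro ξ η h heq
        have h1 := hf η
        rw [mem_stage] at h1
        exact hf' ξ (heq ▸ h1 ξ h)
      intro ξ η h
      rcases lt_trichotomy ξ η with h1 | h1 | h1
      · exact absurd h (this _ _ h1)
      · exact h1
      · exact absurd h.symm (this _ _ h1)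
    exact not_small_ordinal.{0} (small_of_injective hinj)
  obtain ⟨ξ, hξ⟩ := hex
  refine ⟨stage G ξ, mDef_stage hmono hG ξ, hξ, fun B hB => ?_⟩
  clear hξ
  induction ξ using WellFoundedLT.induction with
  | _ ξ ih =>
    intro t ht
    rw [mem_stage]
    intro η hη
    exact hB _ (mDef_stage hmono hG η) (ih η hη) ht

end stage

end Pool.Agent.H75.EK
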