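import Pool.Agent.H75.EK.Stage

/-!
Trees of attempts to build a branch and a rank function, and the two applications of the
derivation lemma.
-/

open Set

namespace Pool.Agent.H75.EK

universe u v w

@[simp] theorem length_res {α : Type*} (a : ℕ → α) (n : ℕ) : (res a n).length = n := by
  simp [res]

theorem getElem?_res {α : Type*} (a : ℕ → α) (n i : ℕ) :
    (res a n)[i]? = if i < n then some (a i) else none := by
  unfold res
  by_cases h : i < n <;> simp [h]

theorem getElem?_res_eq_some {α : Type*} {a : ℕ → α} {n i : ℕ} {x : α} :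
    (res a n)[i]? = some x ↔ i < n ∧ a i = x := by
  rw [getElem?_res]
  split_ifs with h <;> simp [h]

/-- `t` is an initial segment of `t'`. -/
def Pre {α : Type*} (t t' : List α) : Prop := ∀ (i : ℕ) (x : α), t[i]? = some x → t'[i]? = some x

theorem Pre.refl {α : Type*} (t : List α) : Pre t t := fun _ _ h => h

theorem Pre.trans {α : Type*} {t t' t'' : List α} (h : Pre t t') (h' : Pre t' t'') : Pre t t'' :=
  fun i x hx => h' i x (h i x hx)

theorem Pre.length_le {α : Type*} {t t' : List α} (h : Pre t t') : t.length ≤ t'.length := by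
  by_contra hlt
  push Not at hlt
  have := h t'.length _ (List.getElem?_eq_getElem hlt)
  simp at this

theorem pre_res {α : Type*} (a : ℕ → α) {m n : ℕ} (h : m ≤ n) : Pre (res a m) (res a n) := by
  intro i x hx
  rw [getElem?_res_eq_some] at hx ⊢
  exact ⟨hx.1.trans_le h, hx.2⟩

/-- A sequence of lists that grow has a limit. -/
theorem exists_limit {α : Type*} (t : ℕ → List α) (hp : ∀ k, Pre (t k) (t (k + 1)))
    (hl : ∀ k, k ≤ (t k).length) : ∃ b : ℕ → α, ∀ k, t k = res b (t k).length := by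
  have hp' : ∀ j k, j ≤ k → Pre (t j) (t k) := by
    intro j k h
    induction k, h using Nat.le_induction with
    | base => exact Pre.refl _
    | succ k _ ih => exact ih.trans (hp k)
  refine ⟨fun i => (t (i + 1))[i]'(by have := hl (i + 1); omega), fun k => ?_⟩
  refine List.ext_getElem? fun i => ?_
  rw [getElem?_res]
  split_ifs with h
  · rcases le_total k (i + 1) with h1 | h1
    · have := hp' _ _ h1 i _ (List.getElem?_eq_getElem h)
      rw [List.getElem?_eq_getElem h, ← this]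
      rw [List.getElem?_eq_getElem]
    · have h2 : i < (t (i + 1)).length := by have := hl (i + 1); omega
      exact hp' _ _ h1 i _ (List.getElem?_eq_getElem h2)
  · exact List.getElem?_eq_none (by omega)

/-- The relation `K`, a family of relations on `ℕ` determined by finite parts of `a`, is
well-founded at `a`: it has a rank function. -/
def Bk (K : List ℕ → ℕ → ℕ → Prop) (a : ℕ → ℕ) : Prop :=
  ∃ h : ℕ → Ordinal.{0}, ∀ n i j, K (res a n) i j → h j < h i

/-- `K` is constructible. -/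
def KDef (K : List ℕ → ℕ → ℕ → Prop) : Prop :=
  MDef (fun p : List ℕ × ℕ × ℕ => K p.1 p.2.1 p.2.2)

theorem exists_kappa (K : List ℕ → ℕ → ℕ → Prop) : ∃ κ : Ordinal.{0}, ∀ a, Bk K a →
    ∃ h : ℕ → Set.Iio κ, ∀ n i j, K (res a n) i j → h j < h i := by
  classical
  let H : (ℕ → ℕ) → ℕ → Ordinal.{0} := fun a => if ha : Bk K a then ha.choose else fun _ => 0
  refine ⟨Order.succ (⨆ p : (ℕ → ℕ) × ℕ, H p.1 p.2), fun a ha => ?_⟩
  refine ⟨fun i => ⟨H a i, ?_⟩, fun n i j hK => ?_⟩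
  · rw [Set.mem_Iio, Order.lt_succ_iff]
    exact Ordinal.le_iSup (fun p : (ℕ → ℕ) × ℕ => H p.1 p.2) (a, i)
  · have := ha.choose_spec n i j hK
    change H a j < H a i
    simpa [H, ha] using this

section tree

variable (K : List ℕ → ℕ → ℕ → Prop) (κ : Ordinal.{0})

/-- A finite attempt is valid. -/
def Valid (t : List (ℕ × Set.Iio κ)) : Prop :=
  ∀ (l : List ℕ) (i j : ℕ) (x y : ℕ × Set.Iio κ),
    (∀ (m z : ℕ), l[m]? = some z → ∃ o : Set.Iio κ, t[m]? = some (z, o)) →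
    t[i]? = some x → t[j]? = some y → K l i j → y.2 < x.2

theorem mDef_valid {K : List ℕ → ℕ → ℕ → Prop} (hK : KDef K) (κ : Ordinal.{0}) :
    MDef (Valid K κ) := by
  unfold Valid
  refine MDef.all (MDef.all (MDef.all (MDef.all (MDef.all (MDef.imp (MDef.all (MDef.all
    (MDef.imp (MDef.getElem? ?_ ?_ ?_) (MDef.ex (MDef.getElem? ?_ ?_ ?_)))))
    (MDef.imp (MDef.getElem? ?_ ?_ ?_) (MDef.imp (MDef.getElem? ?_ ?_ ?_)
    (MDef.imp ?_ (MDef.olt ?_ ?_)))))))))
  rotate_left 12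
  · exact hK.comp (f := fun p : ((((List (ℕ × Set.Iio κ) × List ℕ) × ℕ) × ℕ) × (ℕ × Set.Iio κ)) ×
      (ℕ × Set.Iio κ) => (p.1.1.1.1.2, p.1.1.1.2, p.1.1.2)) (by fun_prop)
  all_goals fun_prop

variable {K κ}

theorem valid_res {a : ℕ → ℕ} {h : ℕ → Set.Iio κ}
    (hh : ∀ n i j, K (res a n) i j → h j < h i) (n : ℕ) :
    Valid K κ (res (fun i => (a i, h i)) n) := by
  intro l i j x y hl hi hj hK
  rw [getElem?_res_eq_some] at hi hj
  have : l = res a l.length := by
    refine List.ext_getElem? fun m => ?_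
    rw [getElem?_res]
    split_ifs with hm
    · obtain ⟨o, ho⟩ := hl m _ (List.getElem?_eq_getElem hm)
      rw [getElem?_res_eq_some] at ho
      rw [List.getElem?_eq_getElem hm]
      have := congrArg Prod.fst ho.2
      simp only at this
      rw [this]
    · exact List.getElem?_eq_none (by omega)
  rw [this] at hK
  have := hh _ _ _ hK
  rw [← hi.2, ← hj.2]
  exact this

theorem bk_of_valid {b : ℕ → ℕ × Set.Iio κ} (hb : ∀ N, ∃ n, N ≤ n ∧ Valid K κ (res b n)) :
    Bk K (fun i => (b i).1) := by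
  refine ⟨fun i => (b i).2, fun n i j hK => ?_⟩
  obtain ⟨m, hm, hv⟩ := hb (n + i + j + 1)
  refine hv (res (fun i => (b i).1) n) i j (b i) (b j) ?_ ?_ ?_ hK
  · intro k z hz
    rw [getElem?_res_eq_some] at hz
    refine ⟨(b k).2, ?_⟩
    rw [getElem?_res_eq_some]
    exact ⟨by omega, by rw [← hz.2]⟩
  · rw [getElem?_res_eq_some]; exact ⟨by omega, rfl⟩
  · rw [getElem?_res_eq_some]; exact ⟨by omega, rfl⟩

end tree

theorem mDef_pre {τ : Type u} [MType τ] {Γ : Type w} [MType Γ] {f g : Γ → List τ} (hf : MFun f)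
    (hg : MFun g) : MDef (fun c => Pre (f c) (g c)) := by
  unfold Pre
  refine MDef.all (MDef.all (MDef.imp (MDef.getElem? ?_ ?_ ?_) (MDef.getElem? ?_ ?_ ?_))) <;>
    fun_prop

/-- **Case 1**: if all the `a` with `Bk K a` have the same `E`-part `x`, then `x` is
constructible. -/
theorem mFun_of_unique {K : List ℕ → ℕ → ℕ → Prop} (hK : KDef K) {E : ℕ → ℕ} (hE : MFun E)
    {x : ℕ → ℕ} (hne : ∃ a, Bk K a) (huniq : ∀ a, Bk K a → ∀ i, E (a i) = x i) : MFun x := by
  obtain ⟨κ, hκ⟩ := exists_kappa K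
  let G : Set (List (ℕ × Set.Iio κ)) → Set (List (ℕ × Set.Iio κ)) := fun S =>
    {t | Valid K κ t ∧ ∃ t', t' ∈ S ∧ Pre t t' ∧ t'.length = t.length + 1}
  have hmono : Monotone G := by
    rintro S S' h t ⟨h1, t', h2, h3⟩
    exact ⟨h1, t', h h2, h3⟩
  have hG : UDef G := by
    intro Γ _ Q hQ
    refine MDef.and ((mDef_valid hK κ).comp (by fun_prop)) (MDef.ex (MDef.and ?_ (MDef.and
      (mDef_pre ?_ ?_) (MDef.eq ?_ ?_))))
    · exact hQ.comp (f := fun q : (Γ × List (ℕ × Set.Iio κ)) × List (ℕ × Set.Iio κ) =>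
        (q.1.1, q.2)) (by fun_prop)
    all_goals fun_prop
  obtain ⟨S, hS, hfix, hB⟩ := exists_fix hmono hG
  obtain ⟨a, ha⟩ := hne
  obtain ⟨h, hh⟩ := hκ a ha
  have hbr : Set.range (res (fun i => (a i, h i))) ⊆ S := by
    apply hB
    rintro S' _ hsub _ ⟨n, rfl⟩
    exact ⟨valid_res hh n, _, hsub ⟨n + 1, rfl⟩, pre_res _ (Nat.le_succ n), by simp⟩
  have hxS : ∀ t ∈ S, ∀ (i : ℕ) (p : ℕ × Set.Iio κ), t[i]? = some p → E p.1 = x i := by
    intro t ht i p hp
    have hstep : ∀ s : S, ∃ s' : S, Pre s.1 s'.1 ∧ s'.1.length = s.1.length + 1 := by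
      rintro ⟨s, hs⟩
      obtain ⟨_, s', h1, h2⟩ := hfix hs
      exact ⟨⟨s', h1⟩, h2⟩
    choose nxt hn1 hn2 using hstep
    let T : ℕ → S := fun k => Nat.rec ⟨t, ht⟩ (fun _ s => nxt s) k
    have hT0 : T 0 = ⟨t, ht⟩ := rfl
    have hTs : ∀ k, T (k + 1) = nxt (T k) := fun k => rfl
    have hlen : ∀ k, (T k).1.length = t.length + k := by
      intro k
      induction k with
      | zero => rfl
      | succ k ih => rw [hTs, hn2, ih]; ring
    obtain ⟨b, hb⟩ := exists_limit (fun k => (T k).1) (fun k => by rw [hTs]; exact hn1 _)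
      (fun k => by rw [hlen]; omega)
    have hBk : Bk K (fun i => (b i).1) := by
      apply bk_of_valid (κ := κ)
      intro N
      refine ⟨(T N).1.length, by rw [hlen]; omega, ?_⟩
      have := hb N
      rw [← this]
      exact (hfix (T N).2).1
    have h1 := huniq _ hBk i
    have h2 : t = res b t.length := hb 0
    rw [h2, getElem?_res_eq_some] at hp
    rw [← hp.2]
    exact h1
  unfold MFun
  refine MDef.congr (P := fun p : ℕ × ℕ => ∃ t : List (ℕ × Set.Iio κ), ∃ q : ℕ × Set.Iio κ,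
    t ∈ S ∧ t[p.1]? = some q ∧ E q.1 = p.2) ?_ ?_
  · refine MDef.ex (MDef.ex (MDef.and (hS.comp ?_) (MDef.and (MDef.getElem? ?_ ?_ ?_)
      (MDef.eq ?_ ?_)))) <;> fun_prop
  · rintro ⟨i, c⟩
    dsimp only
    constructor
    · rintro ⟨t, q, h1, h2, h3⟩
      rw [← h3, hxS t h1 i q h2]
    · intro h1
      refine ⟨res (fun i => (a i, h i)) (i + 1), (a i, h i), hbr ⟨_, rfl⟩, ?_, ?_⟩
      · rw [getElem?_res_eq_some]; exact ⟨by omega, rfl⟩
      · rw [← h1]; exact huniq a ha i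

/-! ### Case 2 -/

/-- A binary string. -/
def Bin (s : List ℕ) : Prop := ∀ (i x : ℕ), s[i]? = some x → x < 2

/-- The `E`-part of the node `t` extends the string `s`. -/
def Ext {κ : Ordinal.{0}} (E : ℕ → ℕ) (s : List ℕ) (t : List (ℕ × Set.Iio κ)) : Prop :=
  ∀ (i x : ℕ), s[i]? = some x → ∃ p : ℕ × Set.Iio κ, t[i]? = some p ∧ E p.1 = x

theorem Ext.length_le {κ : Ordinal.{0}} {E : ℕ → ℕ} {s : List ℕ} {t : List (ℕ × Set.Iio κ)}
    (h : Ext E s t) : s.length ≤ t.length := by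
  by_contra hlt
  push Not at hlt
  obtain ⟨p, hp, _⟩ := h t.length _ (List.getElem?_eq_getElem hlt)
  simp at hp

theorem Ext.mono {κ : Ordinal.{0}} {E : ℕ → ℕ} {s s' : List ℕ} {t t' : List (ℕ × Set.Iio κ)}
    (h : Ext E s t) (hs : Pre s' s) (ht : Pre t t') : Ext E s' t' := by
  intro i x hx
  obtain ⟨p, hp, h1⟩ := h i x (hs i x hx)
  exact ⟨p, ht i p hp, h1⟩

/-- `X` is Cohen generic for the constructible dense sets of binary strings. -/
def Generic (X : ℕ → ℕ) : Prop :=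
  ∀ D : Set (List ℕ), MDef (· ∈ D) → (∀ s, Bin s → ∃ r ∈ D, Bin r ∧ Pre s r) → ∃ n, res X n ∈ D

/-- Nodes of `S` above `t` are dense above the string `s`. -/
def Good {κ : Ordinal.{0}} (E : ℕ → ℕ) (S : Set (List (ℕ × Set.Iio κ)))
    (t : List (ℕ × Set.Iio κ)) (s : List ℕ) : Prop :=
  ∀ r, Bin r → Pre s r → ∃ t' ∈ S, Pre t t' ∧ Ext E r t'

theorem Good.mono {κ : Ordinal.{0}} {E : ℕ → ℕ} {S : Set (List (ℕ × Set.Iio κ))}
    {t : List (ℕ × Set.Iio κ)} {s s' : List ℕ} (h : Good E S t s) (hs : Pre s s') :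
    Good E S t s' := fun r hr hsr => h r hr (hs.trans hsr)

theorem bin_append {s r : List ℕ} (hs : Bin s) (hr : Bin r) : Bin (s ++ r) := by
  intro i x h
  rw [List.getElem?_append] at h
  split_ifs at h
  · exact hs _ _ h
  · exact hr _ _ h

theorem bin_replicate (n : ℕ) : Bin (List.replicate n 0) := by
  intro i x h
  rw [List.getElem?_replicate] at h
  split_ifs at h
  cases h
  omega

theorem pre_append {α : Type*} (s r : List α) : Pre s (s ++ r) := by
  intro i x h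
  rw [List.getElem?_append_left (List.getElem?_eq_some_iff.1 h).1]
  exact h

theorem Pre.set {s s' : List ℕ} (h : Pre s s') (k c : ℕ) (hk : k < s.length) :
    Pre (s.set k c) (s'.set k c) := by
  intro i x hx
  rw [List.getElem?_set] at hx ⊢
  have := h.length_le
  by_cases hki : k = i
  · subst hki
    simp only [if_true] at hx ⊢
    rw [if_pos hk] at hx
    rw [if_pos (by omega)]
    exact hx
  · rw [if_neg hki] at hx ⊢
    exact h i x hx

theorem Bin.set {s : List ℕ} (h : Bin s) (k : ℕ) {c : ℕ} (hc : c < 2) : Bin (s.set k c) := by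
  intro i x hx
  rw [List.getElem?_set] at hx
  split_ifs at hx with h1 h2
  · cases hx; exact hc
  · exact h i x hx

section fusion

variable {κ : Ordinal.{0}} {E : ℕ → ℕ} {S : Set (List (ℕ × Set.Iio κ))}

theorem good_step (hS : ∀ t ∈ S, ∃ s, Bin s ∧ Good E S t s) {t : List (ℕ × Set.Iio κ)}
    {s : List ℕ} (hs : Bin s) (h : Good E S t s) :
    ∃ t' ∈ S, Pre t t' ∧ Ext E s t' ∧ ∃ r, Bin r ∧ Pre s r ∧ s.length < r.length ∧
      Good E S t' r := by
  obtain ⟨t', ht', h1, h2⟩ := h s hs (Pre.refl s)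
  obtain ⟨r, hr, h3⟩ := hS t' ht'
  refine ⟨t', ht', h1, h2, r ++ List.replicate (s.length + 1) 0,
    bin_append hr (bin_replicate _), ?_, by simp; omega, h3.mono (pre_append _ _)⟩
  obtain ⟨t'', _, h4, h5⟩ := h3 _ (bin_append hr (bin_replicate (s.length + 1))) (pre_append _ _)
  intro i x hx
  obtain ⟨p, hp, hpx⟩ := h2 i x hx
  have hi : i < s.length := (List.getElem?_eq_some_iff.1 hx).1
  have hi' : i < (r ++ List.replicate (s.length + 1) 0).length := by simp; omega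
  obtain ⟨q, hq, hqx⟩ := h5 i _ (List.getElem?_eq_getElem hi')
  have := h4 i p hp
  rw [hq] at this
  cases this
  rw [List.getElem?_eq_getElem hi', ← hqx, hpx]

/-- The states of the fusion. -/
structure FState (κ : Ordinal.{0}) (E : ℕ → ℕ) (S : Set (List (ℕ × Set.Iio κ))) (k : ℕ) where
  s : List ℕ
  t0 : List (ℕ × Set.Iio κ)
  t1 : List (ℕ × Set.Iio κ)
  bin : Bin s
  hk : s[k]? = some 0
  g0 : Good E S t0 s
  g1 : Good E S t1 (s.set k 1)

theorem fusion_step (hS : ∀ t ∈ S, ∃ s, Bin s ∧ Good E S t s) {k : ℕ} (A : FState κ E S k) :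
    ∃ B : FState κ E S k, Pre A.s B.s ∧ A.s.length < B.s.length ∧ Pre A.t0 B.t0 ∧
      Pre A.t1 B.t1 ∧ B.t0 ∈ S ∧ B.t1 ∈ S ∧ Ext E A.s B.t0 ∧ Ext E (A.s.set k 1) B.t1 := by
  have hk : k < A.s.length := (List.getElem?_eq_some_iff.1 A.hk).1
  obtain ⟨t0, ht0, h1, h2, r0, hr0, h3, h4, h5⟩ := good_step hS A.bin A.g0
  obtain ⟨t1, ht1, h6, h7, r1, hr1, h8, h9, h10⟩ := good_step hS (hr0.set k (by omega))
    (A.g1.mono (h3.set k 1 hk))
  have hk0 : k < r0.length := by omega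
  have hr0k : r0[k]? = some 0 := h3 k 0 A.hk
  have hr1k : r1[k]? = some 1 := by
    apply h8
    rw [List.getElem?_set]
    simp [hk0]
  have hlen : r0.length < r1.length := by simpa using h9
  have hpre : Pre r0 (r1.set k 0) := by
    intro i x hx
    rw [List.getElem?_set]
    by_cases hki : k = i
    · subst hki
      rw [hr0k] at hx
      rw [if_pos rfl, if_pos (by omega)]
      exact hx
    · rw [if_neg hki]
      apply h8
      rw [List.getElem?_set, if_neg hki]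
      exact hx
  have hset : (r1.set k 0).set k 1 = r1 := by
    rw [List.set_set]
    refine List.ext_getElem? fun i => ?_
    rw [List.getElem?_set]
    by_cases hki : k = i
    · subst hki
      rw [hr1k]
      simp
      omega
    · rw [if_neg hki]
  refine ⟨⟨r1.set k 0, t0, t1, hr1.set k (by omega), ?_, h5.mono hpre, by rwa [hset]⟩,
    h3.trans hpre, by simp; omega, h1, h6, ht0, ht1, h2, h7.mono (h3.set k 1 hk) (Pre.refl _)⟩
  rw [List.getElem?_set]
  rw [if_pos rfl, if_pos (by omega)]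

theorem fusion {K : List ℕ → ℕ → ℕ → Prop} (hval : ∀ t ∈ S, Valid K κ t)
    (hS : ∀ t ∈ S, ∃ s, Bin s ∧ Good E S t s) {k : ℕ}
    (A : FState κ E S k) : ∃ Z0 Z1 : ℕ → ℕ, (∀ i, Z0 i < 2) ∧ (∀ i, Z1 i < 2) ∧ Z0 k = 0 ∧
      Z1 k = 1 ∧ (∀ i, i ≠ k → Z0 i = Z1 i) ∧ (∀ i x, A.s[i]? = some x → Z0 i = x) ∧
      (∃ a, Bk K a ∧ ∀ i, E (a i) = Z0 i) ∧ (∃ a, Bk K a ∧ ∀ i, E (a i) = Z1 i) := by
  choose nxt h1 h2 h3 h4 h5 h6 h7 h8 using fun A : FState κ E S k => fusion_step hS A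
  obtain ⟨T, hT0, hTs⟩ : ∃ T : ℕ → FState κ E S k, T 0 = A ∧ ∀ n, T (n + 1) = nxt (T n) :=
    ⟨fun n => Nat.rec A (fun _ B => nxt B) n, rfl, fun n => rfl⟩
  have hlen : ∀ n, n ≤ (T n).s.length := by
    intro n
    induction n with
    | zero => omega
    | succ n ih => have := h2 (T n); rw [hTs]; omega
  have hlen0 : ∀ n, n ≤ (T (n + 1)).t0.length := by
    intro n
    have := (h7 (T n)).length_le
    have := hlen n
    rw [hTs]; omega
  have hlen1 : ∀ n, n ≤ (T (n + 1)).t1.length := by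
    intro n
    have h := (h8 (T n)).length_le
    have := hlen n
    rw [List.length_set] at h
    rw [hTs]; omega
  obtain ⟨Z0, hZ0⟩ := exists_limit (fun n => (T n).s) (fun n => by rw [hTs]; exact h1 _) hlen
  obtain ⟨b0, hb0⟩ := exists_limit (fun n => (T (n + 1)).t0)
    (fun n => by rw [hTs (n + 1)]; exact h3 _) hlen0
  obtain ⟨b1, hb1⟩ := exists_limit (fun n => (T (n + 1)).t1)
    (fun n => by rw [hTs (n + 1)]; exact h4 _) hlen1
  have hs : ∀ n i x, (T n).s[i]? = some x → Z0 i = x := by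
    intro n i x hx
    rw [hZ0 n, getElem?_res_eq_some] at hx
    exact hx.2
  have hget : ∀ i, (T (i + 1)).s[i]? = some (Z0 i) := by
    intro i
    have hi := hlen (i + 1)
    have h := List.getElem?_eq_getElem (l := (T (i + 1)).s) (i := i) (by omega)
    rw [h, hs (i + 1) i _ h]
  have hZ2 : ∀ i, Z0 i < 2 := fun i => (T (i + 1)).bin _ _ (hget i)
  refine ⟨Z0, Function.update Z0 k 1, hZ2, ?_, ?_, by simp, ?_, ?_, ⟨fun i => (b0 i).1, ?_, ?_⟩,
    ⟨fun i => (b1 i).1, ?_, ?_⟩⟩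
  · intro i
    by_cases hi : i = k
    · subst hi; simp
    · rw [Function.update_of_ne hi]; exact hZ2 i
  · exact hs 0 k 0 (T 0).hk
  · intro i hi
    rw [Function.update_of_ne hi]
  · intro i x hx
    rw [← hT0] at hx
    exact hs 0 i x hx
  · apply bk_of_valid (κ := κ)
    intro N
    refine ⟨(T (N + 1)).t0.length, hlen0 N, ?_⟩
    rw [← hb0 N]
    apply hval
    rw [hTs]
    exact h5 _
  · intro i
    obtain ⟨p, hp, hpx⟩ := h7 (T (i + 1)) i _ (hget i)
    rw [← hTs, hb0 (i + 1), getElem?_res_eq_some] at hp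
    change E (b0 i).1 = _
    rw [hp.2, hpx]
  · apply bk_of_valid (κ := κ)
    intro N
    refine ⟨(T (N + 1)).t1.length, hlen1 N, ?_⟩
    rw [← hb1 N]
    apply hval
    rw [hTs]
    exact h6 _
  · intro i
    have h : ((T (i + 1)).s.set k 1)[i]? = some (Function.update Z0 k 1 i) := by
      rw [List.getElem?_set]
      by_cases hi : k = i
      · subst hi
        have := hlen (k + 1)
        rw [if_pos rfl, if_pos (by omega)]
        simp
      · rw [if_neg hi, Function.update_of_ne (Ne.symm hi)]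
        exact hget i
    obtain ⟨p, hp, hpx⟩ := h8 (T (i + 1)) i _ h
    rw [← hTs, hb1 (i + 1), getElem?_res_eq_some] at hp
    change E (b1 i).1 = _
    rw [hp.2, hpx]

end fusion

theorem mDef_bin : MDef Bin := by
  unfold Bin
  refine MDef.all (MDef.all (MDef.imp (MDef.getElem? ?_ ?_ ?_) (MDef.lt ?_ ?_))) <;> fun_prop

theorem mDef_ext {κ : Ordinal.{0}} {E : ℕ → ℕ} (hE : MFun E) {Γ : Type w} [MType Γ]
    {f : Γ → List ℕ} {g : Γ → List (ℕ × Set.Iio κ)} (hf : MFun f) (hg : MFun g) :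
    MDef (fun c => Ext E (f c) (g c)) := by
  unfold Ext
  refine MDef.all (MDef.all (MDef.imp (MDef.getElem? ?_ ?_ ?_) (MDef.ex (MDef.and
    (MDef.getElem? ?_ ?_ ?_) (MDef.eq ?_ ?_))))) <;> fun_prop

/-- **Case 2**: if the set of the `E`-parts of the `a` with `Bk K a` contains a Cohen generic,
then it contains two pairs of points that differ in exactly one digit, the same one. -/
theorem exists_pairs_of_generic {K : List ℕ → ℕ → ℕ → Prop} (hK : KDef K) {E : ℕ → ℕ}
    (hE : MFun E) {a : ℕ → ℕ} (ha : Bk K a) (hgen : Generic (fun i => E (a i))) :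
    ∃ k : ℕ, ∀ c : ℕ, c < 2 → ∃ Z0 Z1 : ℕ → ℕ, (∀ i, Z0 i < 2) ∧ (∀ i, Z1 i < 2) ∧ Z0 k = 0 ∧
      Z1 k = 1 ∧ (∀ i, i ≠ k → Z0 i = Z1 i) ∧ Z0 (k + 1) = c ∧
      (∃ a, Bk K a ∧ ∀ i, E (a i) = Z0 i) ∧ (∃ a, Bk K a ∧ ∀ i, E (a i) = Z1 i) := by
  obtain ⟨κ, hκ⟩ := exists_kappa K
  let G : Set (List (ℕ × Set.Iio κ)) → Set (List (ℕ × Set.Iio κ)) := fun S =>
    {t | Valid K κ t ∧ ∃ s, Bin s ∧ ∀ r, Bin r → Pre s r → ∃ t', t' ∈ S ∧ Pre t t' ∧ Ext E r t'}
  have hmono : Monotone G := by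
    rintro S S' h t ⟨h1, s, h2, h3⟩
    refine ⟨h1, s, h2, fun r hr hsr => ?_⟩
    obtain ⟨t', h4, h5⟩ := h3 r hr hsr
    exact ⟨t', h h4, h5⟩
  have hG : UDef G := by
    intro Γ _ Q hQ
    refine MDef.and ((mDef_valid hK κ).comp (by fun_prop)) (MDef.ex (MDef.and
      (mDef_bin.comp (by fun_prop)) (MDef.all (MDef.imp (mDef_bin.comp (by fun_prop))
      (MDef.imp (mDef_pre ?_ ?_) (MDef.ex (MDef.and ?_ (MDef.and (mDef_pre ?_ ?_)
      (mDef_ext hE ?_ ?_)))))))))
    rotate_left 2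
    · exact hQ.comp (f := fun q : (((Γ × List (ℕ × Set.Iio κ)) × List ℕ) × List ℕ) ×
        List (ℕ × Set.Iio κ) => (q.1.1.1.1, q.2)) (by fun_prop)
    all_goals fun_prop
  obtain ⟨S, hS, hfix, hB⟩ := exists_fix hmono hG
  obtain ⟨h, hh⟩ := hκ a ha
  have hbr : Set.range (res (fun i => (a i, h i))) ⊆ S := by
    apply hB
    rintro S' hS' hsub _ ⟨n, rfl⟩
    refine ⟨valid_res hh n, ?_⟩
    by_contra hno
    push Not at hno
    have hD1 : MDef (· ∈ {r | Bin r ∧ ¬ ∃ t', t' ∈ S' ∧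
        Pre (res (fun i => (a i, h i)) n) t' ∧ Ext E r t'}) := by
      refine MDef.and mDef_bin (MDef.not (MDef.ex (MDef.and (hS'.comp ?_) (MDef.and
        (mDef_pre ?_ ?_) (mDef_ext hE ?_ ?_))))) <;> fun_prop
    obtain ⟨m, hm1, hm2⟩ := hgen _ hD1 (by
      intro s hs
      obtain ⟨r, hr, hsr, h2⟩ := hno s hs
      refine ⟨r, ⟨hr, ?_⟩, hr, hsr⟩
      rintro ⟨t', h3, h4, h5⟩
      exact h2 t' h3 h4 h5)
    apply hm2
    refine ⟨res (fun i => (a i, h i)) (max n m), hsub ⟨_, rfl⟩, pre_res _ (le_max_left _ _), ?_⟩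
    intro i x hx
    rw [getElem?_res_eq_some] at hx
    refine ⟨(a i, h i), ?_, hx.2⟩
    rw [getElem?_res_eq_some]
    exact ⟨lt_of_lt_of_le hx.1 (le_max_right _ _), rfl⟩
  have hval : ∀ t ∈ S, Valid K κ t := fun t ht => (hfix ht).1
  have hSd : ∀ t ∈ S, ∃ s, Bin s ∧ Good E S t s := fun t ht => (hfix ht).2
  obtain ⟨s, hs, hgood⟩ := hSd (res (fun i => (a i, h i)) 0) (hbr ⟨0, rfl⟩)
  refine ⟨s.length, fun c hc => ?_⟩
  have hset : (s ++ [0, c]).set s.length 1 = s ++ [1, c] := by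
    rw [List.set_append]
    simp
  have hbin2 : ∀ x : ℕ, x < 2 → Bin (s ++ [x, c]) := by
    intro x hx
    apply bin_append hs
    intro i y hy
    rcases i with _ | _ | i <;> simp at hy
    · omega
    · omega
  obtain ⟨Z0, Z1, h1, h2, h3, h4, h5, h6, h7, h8⟩ := fusion hval hSd (k := s.length)
    ⟨s ++ [0, c], _, _, hbin2 0 (by omega), by simp, hgood.mono (pre_append _ _), by
      rw [hset]; exact hgood.mono (pre_append _ _)⟩
  refine ⟨Z0, Z1, h1, h2, h3, h4, h5, ?_, h7, h8⟩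
  apply h6
  simp

end Pool.Agent.H75.EK
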